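import Pool.Agent.P.MP_0ad054_nt.An.Lup
import Pool.Agent.P.MP_0ad054_nt.An.Tauber
import Pool.Agent.P.MP_0ad054_nt.An.SW
import Pool.Agent.P.MP_0ad054_nt.An.Zfree
import Pool.Agent.P.MP_323ce2_nt.Tools

/-! A zero free half plane gives a power saving for twisted sums of the von Mangoldt function,
uniformly in the modulus. -/

namespace Pool.Agent.P.MP_26a8c3_nt.QE

open Finset Complex DirichletCharacter Metric
open scoped ArithmeticFunction.vonMangoldt
open Pool.Agent.P.MP_0ad054_nt Pool.Agent.P.MP_0ad054_nt.An Pool.Agent.P.MP_323ce2_nt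

/-- no Dirichlet L-function vanishes in the half plane `θ < re s` -/
def ZF (θ : ℝ) : Prop :=
  ∀ (q : ℕ) [NeZero q] (χ : DirichletCharacter ℂ q) (s : ℂ), θ < s.re → s ≠ 1 → LFunction χ s ≠ 0

lemma logder {h : ℂ → ℂ} (hd : Differentiable ℂ h) {ρ M : ℝ} (r0 : 0 < ρ) (r1 : ρ ≤ 1 / 4) {c : ℂ}
    (h0 : ∀ z ∈ ball c (1 + 2 * ρ), h z ≠ 0) (hM : 0 < M)
    (hb : ∀ z ∈ ball c (1 + 2 * ρ), ‖h z‖ ≤ ‖h c‖ * Real.exp M) {z : ℂ}
    (hz : z ∈ closedBall c (1 + ρ)) : ‖deriv h z / h z‖ ≤ 16 * M / ρ ^ 2 := by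
  obtain ⟨φ, hφ, φ0, hφ'⟩ := exists_log (by linarith : 0 < 1 + 2 * ρ) hd.differentiableOn h0
  have hc := norm_pos_iff.2 (h0 c (mem_ball_self (by linarith)))
  have hre : ∀ w ∈ ball c (1 + 2 * ρ), (φ w).re ≤ M := fun w hw => by
    have h1 := hb w hw
    rw [hφ' w hw, norm_mul, norm_exp] at h1
    exact Real.exp_le_exp.1 (le_of_mul_le_mul_left h1 hc)
  have hsub : closedBall z (ρ / 2) ⊆ closedBall c (1 + 3 / 2 * ρ) :=
    closedBall_subset_closedBall' (by rw [mem_closedBall] at hz; linarith)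
  have hsub' : closedBall z (ρ / 2) ⊆ ball c (1 + 2 * ρ) :=
    hsub.trans (closedBall_subset_ball (by linarith))
  have hz' : z ∈ ball c (1 + 2 * ρ) := hsub' (mem_closedBall_self (by linarith))
  have h1 := norm_deriv_le_of_forall_mem_sphere_norm_le (c := z) (R := ρ / 2) (by linarith)
    (DifferentiableOn.diffContOnCl (hφ.mono (by rw [closure_ball _ (by linarith)]; exact hsub')))
    fun w hw => bc hM (by linarith) (by linarith) hφ φ0 hre (hsub (sphere_subset_closedBall hw))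
  have h2 : deriv h z = h z * deriv φ z := by
    have e : h =ᶠ[nhds z] fun w => h c * exp (φ w) := by
      filter_upwards [isOpen_ball.mem_nhds hz'] with w hw using hφ' w hw
    have e2 := ((hφ.differentiableAt (isOpen_ball.mem_nhds hz')).hasDerivAt.cexp).const_mul (h c)
    rw [e.deriv_eq, e2.deriv, hφ' z hz', mul_assoc]
  rw [h2, mul_div_cancel_left₀ _ (h0 z hz')]
  refine h1.trans ?_
  rw [show 1 + 2 * ρ - (1 + 3 / 2 * ρ) = ρ / 2 by ring, div_div, div_le_div_iff₀ (by positivity)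
    (by positivity)]
  nlinarith [mul_pos hM (pow_pos r0 2), mul_pos (mul_pos hM (pow_pos r0 2)) r0]

lemma half_le {q : ℕ} [NeZero q] (χ : DirichletCharacter ℂ q) (t : ℝ) :
    1 / 2 ≤ ‖LFunction χ (2 + I * t)‖ := by
  have h := ZfreeP.three41 χ one_pos le_rfl (t := t)
    (ZfreeP.norm_L_le_two (χ ^ 2) one_pos le_rfl (by simp))
  rw [show (1 : ℂ) + (1 : ℝ) = 2 by norm_num] at h
  by_contra h1
  have h2 := pow_lt_pow_left₀ (not_le.1 h1) (norm_nonneg _) (by norm_num : 4 ≠ 0)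
  linarith

/-- the logarithmic derivative of an entire function of polynomial growth without zeros -/
lemma logder' {h : ℂ → ℂ} (hd : Differentiable ℂ h) {ρ C : ℝ} (r0 : 0 < ρ) (r1 : ρ ≤ 1 / 4)
    (hC : 1 ≤ C) (h0 : ∀ z : ℂ, 1 - 2 * ρ < z.re → h z ≠ 0)
    (hl : ∀ t : ℝ, 1 / 2 ≤ ‖h (2 + I * t)‖)
    (hu : ∀ z : ℂ, 1 / 2 ≤ z.re → z.re ≤ 4 → ‖h z‖ ≤ C * (|z.im| + 3) ^ 2) {s : ℂ}
    (h1 : 1 - ρ ≤ s.re) (h2 : s.re ≤ 2) :
    ‖deriv h s / h s‖ ≤ 16 * (Real.log C + 7) / ρ ^ 2 * Real.sqrt (|s.im| + 4) := by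
  set t := s.im with ht
  have t0 := abs_nonneg t
  have hball : ∀ z ∈ ball (2 + I * t) (1 + 2 * ρ),
      1 - 2 * ρ < z.re ∧ z.re ≤ 4 ∧ |z.im| ≤ |t| + 2 := fun z hz => by
    rw [mem_ball, dist_eq_norm] at hz
    have a1 := (abs_re_le_norm _).trans_lt hz
    have a2 := (abs_im_le_norm _).trans_lt hz
    simp only [sub_re, add_re, re_ofNat, mul_re, I_re, ofReal_re, zero_mul, I_im, ofReal_im,
      mul_zero, sub_self, add_zero, sub_im, add_im, im_ofNat, mul_im, one_mul, zero_add] at a1 a2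
    rw [abs_lt] at a1
    have a3 := abs_sub_abs_le_abs_sub z.im t
    exact ⟨by linarith [a1.1], by linarith [a1.2], by linarith⟩
  have hpos : 1 < 2 * C * (|t| + 5) ^ 2 := by nlinarith
  have h3 := logder hd r0 r1 (c := 2 + I * t) (M := Real.log (2 * C * (|t| + 5) ^ 2))
    (fun z hz => h0 z (hball z hz).1) (Real.log_pos hpos) (fun z hz => by
      obtain ⟨a1, a2, a3⟩ := hball z hz
      rw [Real.exp_log (by linarith)]
      refine (hu z (by linarith) a2).trans ?_
      have a4 : |z.im| + 3 ≤ |t| + 5 := by linarith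
      calc C * (|z.im| + 3) ^ 2 ≤ C * (|t| + 5) ^ 2 := by gcongr
        _ = 1 / 2 * (2 * C * (|t| + 5) ^ 2) := by ring
        _ ≤ _ := by gcongr; exact hl t) (z := s) (by
      rw [mem_closedBall, dist_eq_norm, show s - (2 + I * t) = ((s.re - 2 : ℝ) : ℂ) by
        apply Complex.ext <;> simp [ht], norm_real, Real.norm_eq_abs, abs_le]
      constructor <;> linarith)
  refine h3.trans ?_
  rw [div_mul_eq_mul_div, mul_assoc 16]
  gcongr
  set u := Real.sqrt (|t| + 4) with hu'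
  have u2 : u ^ 2 = |t| + 4 := Real.sq_sqrt (by linarith)
  have u0 : 0 ≤ u := Real.sqrt_nonneg _
  have u1 : 2 ≤ u := by nlinarith
  have lC := Real.log_nonneg hC
  have e1 : Real.log (2 * C * (|t| + 5) ^ 2) ≤ Real.log (C * (2 * u) ^ 4) := by
    refine Real.log_le_log (by linarith) ?_
    rw [show C * (2 * u) ^ 4 = 16 * C * (u ^ 2) ^ 2 by ring, u2]
    nlinarith [mul_nonneg (show 0 ≤ C by linarith) (show 0 ≤ 16 * (|t| + 4) ^ 2 - 2 * (|t| + 5) ^ 2
      by nlinarith)]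
  rw [Real.log_mul (x := C) (by linarith) (by positivity), Real.log_pow, Real.log_mul (x := 2)
    (y := u) (by norm_num) (by linarith)] at e1
  have e2 := Real.log_le_sub_one_of_pos (show 0 < u by linarith)
  have e3 := Real.log_two_lt_d9
  push_cast at e1
  nlinarith

lemma log_pow_le {η : ℝ} (hη : 0 < η) :
    ∃ c : ℝ, 0 < c ∧ ∀ x : ℝ, 1 ≤ x → (1 + Real.log x) ^ 2 ≤ c * x ^ η := by
  refine ⟨(1 + 2 / η) ^ 2, by positivity, fun x hx => ?_⟩
  have h1 := Real.log_le_rpow_div (show 0 ≤ x by linarith) (show 0 < η / 2 by positivity)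
  have h2 : 1 ≤ x ^ (η / 2) := Real.one_le_rpow hx (by positivity)
  have h3 := Real.log_nonneg hx
  calc _ ≤ ((1 + 2 / η) * x ^ (η / 2)) ^ 2 := by
        gcongr
        rw [add_mul, one_mul]
        exact add_le_add h2 (h1.trans_eq (by field_simp))
    _ = _ := by
        rw [mul_pow, ← Real.rpow_mul_natCast (by linarith)]
        norm_num

lemma key {ρ : ℝ} (r0 : 0 < ρ) (r1 : ρ ≤ 1 / 2) : ∃ C : ℝ, 0 < C ∧
    ∀ (a : ℕ → ℂ) (F : ℂ → ℂ) (E : ℝ) (X : ℕ) (Y : ℝ), 1 ≤ E → 1 ≤ Y → X ≤ Y →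
      (∀ n, 1 ≤ n → ‖a n‖ ≤ Real.log n + 1) → (∀ s : ℂ, 1 < s.re → F s = LSeries a s) →
      (∀ s : ℂ, 1 - ρ ≤ s.re → s.re ≤ 2 →
        DifferentiableAt ℂ F s ∧ ‖F s‖ ≤ E * Real.sqrt (|s.im| + 4)) →
      ‖∑ n ∈ Icc 1 X, a n‖ ≤ C * E * Y ^ (1 - ρ / 8) := by
  obtain ⟨C0, hC0, hT⟩ := tauber
  obtain ⟨c, hc, hl⟩ := log_pow_le (show 0 < ρ / 8 by positivity)
  refine ⟨4 + 10 * C0 * c, by positivity, fun a F E X Y hE hY hXY ha hFL hF => ?_⟩
  have hY1 : 1 ≤ Y ^ (1 - ρ / 8) := Real.one_le_rpow hY (by linarith)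
  rw [add_mul, add_mul]
  rcases lt_or_ge X 3 with hX | hX
  · refine le_add_of_le_of_nonneg ?_ (by positivity)
    refine (norm_sum_le _ _).trans ((sum_le_card_nsmul _ _ 2 fun n hn => ?_).trans ?_)
    · rw [mem_Icc] at hn
      have h1 : (1 : ℝ) ≤ n := by exact_mod_cast hn.1
      have h2 : (n : ℝ) ≤ 2 := by exact_mod_cast (by omega)
      linarith [ha n hn.1, Real.log_le_sub_one_of_pos (show (0 : ℝ) < n by linarith)]
    · rw [nsmul_eq_mul, Nat.card_Icc, Nat.add_sub_cancel]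
      have h2 : (X : ℝ) ≤ 2 := by exact_mod_cast (by omega)
      nlinarith
  refine le_add_of_nonneg_of_le (by positivity) ?_
  have hX3 : (3 : ℝ) ≤ X := by exact_mod_cast hX
  have hX0 : (0 : ℝ) < X := by linarith
  set u : ℝ := (X : ℝ) ^ (ρ / 4) with hu
  have u1 : 1 ≤ u := Real.one_le_rpow (by linarith) (by positivity)
  have u4 : (X : ℝ) ^ (-ρ) = 1 / u ^ 4 := by
    rw [hu, ← Real.rpow_mul_natCast hX0.le, Real.rpow_neg hX0.le, one_div]
    norm_num
  have uX : u ≤ X := by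
    have := Real.rpow_le_rpow_of_exponent_le (show (1 : ℝ) ≤ X by linarith)
      (show ρ / 4 ≤ 1 by linarith)
    rwa [Real.rpow_one] at this
  have T1 : 1 ≤ u ^ 4 := one_le_pow₀ u1
  have h := hT a F ρ (u ^ 4) (E * (3 * u ^ 2)) (1 / u) X ha r0 r1 T1 (by positivity) (by positivity)
    (by rw [div_le_one (by linarith)]; exact u1) hX
    (fun s hs => (hF s hs.1 hs.2.1).1.differentiableWithinAt) hFL fun s h1 h2 h3 => by
      refine (hF s h1 h2).2.trans (mul_le_mul_of_nonneg_left ?_ (by linarith))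
      rw [Real.sqrt_le_iff]
      exact ⟨by positivity, by nlinarith⟩
  refine h.trans ?_
  have h2 : (1 + E * (3 * u ^ 2)) * ((X : ℝ) ^ (-ρ) + 1 / u ^ 4) / (1 / u) ≤ 8 * E * (1 / u) := by
    have : 1 ≤ E * u ^ 2 := one_le_mul_of_one_le_of_one_le hE (one_le_pow₀ u1)
    rw [u4]
    calc _ ≤ (E * u ^ 2 + E * (3 * u ^ 2)) * (1 / u ^ 4 + 1 / u ^ 4) / (1 / u) := by gcongr
      _ = _ := by field_simp; ring
  have h3 : 1 ≤ X * (1 / u) := by rw [mul_one_div, one_le_div (by linarith)]; exact uX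
  have h4 : X * (1 / u) * (X : ℝ) ^ (ρ / 8) = (X : ℝ) ^ (1 - ρ / 8) := by
    rw [hu, mul_one_div, show 1 - ρ / 8 = 1 - ρ / 4 + ρ / 8 by ring, Real.rpow_add hX0,
      Real.rpow_sub hX0, Real.rpow_one]
  have h5 : Real.log X ^ 2 ≤ c * (X : ℝ) ^ (ρ / 8) := by
    refine le_trans ?_ (hl X (by linarith))
    have := Real.log_nonneg (show (1 : ℝ) ≤ X by linarith)
    gcongr
    linarith
  have h6 : (X : ℝ) ^ (1 - ρ / 8) ≤ Y ^ (1 - ρ / 8) := Real.rpow_le_rpow hX0.le hXY (by linarith)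
  have h7 : X * (1 / u + 8 * E * (1 / u)) + 1 ≤ 10 * E * (X * (1 / u)) := by nlinarith
  calc _ ≤ C0 * (X * (1 / u + 8 * E * (1 / u)) + 1) * (c * (X : ℝ) ^ (ρ / 8)) := by gcongr
    _ ≤ C0 * (10 * E * (X * (1 / u))) * (c * (X : ℝ) ^ (ρ / 8)) := by gcongr
    _ = 10 * C0 * c * E * (X * (1 / u) * (X : ℝ) ^ (ρ / 8)) := by ring
    _ ≤ _ := by rw [h4]; gcongr

lemma cond_le {q : ℕ} (hq : 1 ≤ q) (z : ℂ) : An.cond q z ^ (1 / 2 : ℝ) ≤ q * (|z.im| + 3) := by
  have h := Real.rpow_le_rpow_of_exponent_le (SWP.one_le_cond hq z) (show (1 / 2 : ℝ) ≤ 1 by norm_num)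
  rw [Real.rpow_one] at h
  refine h.trans ?_
  unfold An.cond
  gcongr
  norm_num

/-- power saving for characters and for the prime number theorem -/
theorem psi {θ : ℝ} (hθ : θ < 1) (hZ : ZF θ) : ∃ κ C : ℝ, 0 < κ ∧ κ ≤ 1 ∧ 0 < C ∧
    (∀ (q : ℕ) [NeZero q] (χ : DirichletCharacter ℂ q) (X : ℕ) (Y : ℝ), χ ≠ 1 → q ≤ Y → X ≤ Y →
      ‖∑ n ∈ Icc 1 X, (Λ n : ℂ) * χ n‖ ≤ C * Y ^ (1 - κ)) ∧
    ∀ (X : ℕ) (Y : ℝ), 1 ≤ Y → X ≤ Y → |∑ n ∈ Icc 1 X, Λ n - X| ≤ C * Y ^ (1 - κ) := by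
  set ρ := min ((1 - θ) / 2) (1 / 4) with hρ
  have r0 : 0 < ρ := lt_min (by linarith) (by norm_num)
  have r1 : ρ ≤ 1 / 4 := min_le_right _ _
  have r2 : θ ≤ 1 - 2 * ρ := by linarith [min_le_left ((1 - θ) / 2) (1 / 4)]
  have r3 : 1 ≤ 16 / ρ ^ 2 := by rw [one_le_div (by positivity)]; nlinarith
  clear_value ρ
  obtain ⟨C1, hC1, hL, hL'⟩ := lup (1 / 2) (by norm_num) le_rfl
  obtain ⟨C, hC, h⟩ := key r0 (by linarith)
  obtain ⟨c, hc, hl⟩ := log_pow_le (show 0 < ρ / 16 by positivity)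
  set D := Real.log (2 * C1 + 1) + 7 with hD
  have D7 : 7 ≤ D := by have := Real.log_nonneg (show 1 ≤ 2 * C1 + 1 by linarith); linarith
  set g := ‖riemannZeta₀ 1‖ with hg
  have g0 : 0 ≤ g := norm_nonneg _
  have hz0 : ∀ z : ℂ, 1 / 2 ≤ z.re → ‖riemannZeta₀ z‖ ≤ C1 * An.cond 1 z ^ (1 / 2 : ℝ) + g :=
    fun z hz => by
      have := SWP.one_le_cond le_rfl z
      rcases eq_or_ne z 1 with rfl | hz1
      · exact le_add_of_nonneg_left (by positivity)
      · refine le_add_of_le_of_nonneg ?_ g0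
        rw [show riemannZeta₀ z = riemannZeta z - 1 / (z - 1) by
          rw [riemannZeta_eq_inv_sub_add hz1]; ring]
        exact hL' z hz1 (by linarith)
  refine ⟨ρ / 16, C * (16 / ρ ^ 2 * D * c) + C * (16 / ρ ^ 2 * D + C1 + g), by positivity,
    by linarith, by positivity, fun q _ χ X Y hχ hq hX => ?_, fun X Y hY hX => ?_⟩
  · have q1 : 1 ≤ q := Nat.pos_of_ne_zero (NeZero.ne q)
    have q1' : (1 : ℝ) ≤ q := by exact_mod_cast q1
    have hY : 1 ≤ Y := q1'.trans hq
    have hd := differentiable_LFunction hχ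
    have hne : ∀ z : ℂ, 1 - 2 * ρ < z.re → LFunction χ z ≠ 0 := fun z hz => by
      rcases eq_or_ne z 1 with rfl | hz1
      · exact LFunction_apply_one_ne_zero hχ
      · exact hZ q χ z (by linarith) hz1
    have lY := Real.log_nonneg hY
    have h1 := h (fun n => (Λ n : ℂ) * χ n) (fun s => -(deriv (LFunction χ) s / LFunction χ s))
      (16 / ρ ^ 2 * D * (1 + Real.log Y) ^ 2) X Y
      (one_le_mul_of_one_le_of_one_le (one_le_mul_of_one_le_of_one_le r3 (by linarith))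
        (one_le_pow₀ (by linarith))) hY hX (fun n _ => ?_) (fun s hs => ?_) fun s h1 h2 => ?_
    · rw [add_mul]
      refine le_add_of_le_of_nonneg (h1.trans ?_) (by positivity)
      calc _ ≤ C * (16 / ρ ^ 2 * D * (c * Y ^ (ρ / 16))) * Y ^ (1 - ρ / 8) := by
            gcongr; exact hl Y hY
        _ = _ := by
            rw [show 1 - ρ / 16 = ρ / 16 + (1 - ρ / 8) by ring, Real.rpow_add (by linarith)]; ring
    · rw [norm_mul, norm_real, Real.norm_eq_abs, abs_of_nonneg ArithmeticFunction.vonMangoldt_nonneg]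
      have h1 := χ.norm_le_one (n : ZMod q)
      have h2 := ArithmeticFunction.vonMangoldt_le_log (n := n)
      have h3 := ArithmeticFunction.vonMangoldt_nonneg (n := n)
      nlinarith
    · rw [deriv_LFunction_eq_deriv_LSeries χ hs, LFunction_eq_LSeries χ hs, ← neg_div,
        ← LSeries_twist_vonMangoldt_eq χ hs]
      congr 1
      funext n
      simp [mul_comm]
    · refine ⟨((hd.deriv s).div (hd s) (hne s (by linarith))).neg, ?_⟩
      rw [norm_neg]
      refine (logder' hd r0 r1 (C := (2 * C1 + 1) * q) (by nlinarith) hne (half_le χ)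
        (fun z a1 _ => (hL q χ hχ z (by linarith)).trans ?_) h1 h2).trans ?_
      · have a2 := cond_le q1 z
        have a3 := abs_nonneg z.im
        calc _ ≤ C1 * (q * (|z.im| + 3)) := by gcongr
          _ = C1 * q * (|z.im| + 3) ^ 1 := by ring
          _ ≤ _ := by gcongr <;> [linarith; linarith; norm_num]
      · rw [Real.log_mul (by linarith) (by linarith), mul_div_right_comm, mul_assoc (16 / ρ ^ 2) D]
        gcongr
        have := Real.log_le_log (by linarith) hq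
        nlinarith [mul_nonneg (show 0 ≤ D by linarith) (sq_nonneg (Real.log Y))]
  · have hne : ∀ z : ℂ, 1 - 2 * ρ < z.re → Zf z ≠ 0 := fun z hz => by
      rcases eq_or_ne z 1 with rfl | hz1
      · exact LFunctionTrivChar₁_apply_one_ne_zero 1
      · rw [SWP.Zf_eq hz1, ← LFunction_modOne_eq (χ := 1)]
        exact mul_ne_zero (sub_ne_zero.2 hz1) (hZ 1 1 z (by linarith) hz1)
    have h1 := h (fun n => (Λ n : ℂ) - 1) (fun s => -(deriv Zf s / Zf s) - riemannZeta₀ s)
      (16 / ρ ^ 2 * D + C1 + g) X Y (by nlinarith) hY hX (fun n _ => ?_) (fun s hs => ?_)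
      fun s h1 h2 => ?_
    · rw [add_mul]
      refine le_add_of_nonneg_of_le (by positivity) (le_trans (le_of_eq ?_) (h1.trans ?_))
      · rw [← Real.norm_eq_abs, ← norm_real]
        congr 1
        simp [sum_sub_distrib]
      · gcongr
        linarith
    · refine (norm_sub_le _ _).trans ?_
      rw [norm_one, norm_real, Real.norm_eq_abs,
        abs_of_nonneg ArithmeticFunction.vonMangoldt_nonneg]
      have h2 := ArithmeticFunction.vonMangoldt_le_log (n := n)
      linarith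
    · have hs1 : s ≠ 1 := by
        intro h; rw [h] at hs; simp at hs
      have hs2 : s - 1 ≠ 0 := sub_ne_zero.2 hs1
      have hz := riemannZeta_ne_zero_of_one_lt_re hs
      have e1 := LSeries_sub (ArithmeticFunction.LSeriesSummable_vonMangoldt hs)
        (LSeriesSummable_one_iff.2 hs)
      rw [ArithmeticFunction.LSeries_vonMangoldt_eq_deriv_riemannZeta_div hs,
        LSeries_one_eq_riemannZeta hs] at e1
      refine Eq.trans ?_ e1.symm
      have e2 : riemannZeta₀ s = riemannZeta s - (s - 1)⁻¹ := by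
        rw [riemannZeta_eq_inv_sub_add hs1]; ring
      rw [SWP.Zf_eq hs1, SWP.deriv_Zf hs1, e2]
      field_simp
      ring
    · have hd := SWP.differentiable_Zf
      refine ⟨((hd.deriv s).div (hd s) (hne s (by linarith))).neg.sub
        (differentiable_riemannZeta₀ s), (norm_sub_le _ _).trans ?_⟩
      rw [norm_neg, add_assoc, add_mul]
      have s0 := abs_nonneg s.im
      refine add_le_add ((logder' hd r0 r1 (C := 2 * C1 + 1) (by linarith) hne (fun t => ?_)
        (fun z a1 a2 => ?_) h1 h2).trans_eq (by ring)) ((hz0 s (by linarith)).trans ?_)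
      · have a1 : (2 + I * t : ℂ) ≠ 1 := fun e => by simpa using congrArg re e
        rw [SWP.Zf_eq a1, ← LFunction_modOne_eq (χ := 1), norm_mul]
        have a2 := re_le_norm (2 + I * t - 1 : ℂ)
        simp only [sub_re, add_re, re_ofNat, mul_re, I_re, ofReal_re, zero_mul, I_im, ofReal_im,
          mul_zero, sub_self, add_zero, one_re] at a2
        nlinarith [half_le (1 : DirichletCharacter ℂ 1) t]
      · have a3 := abs_nonneg z.im
        rcases eq_or_ne z 1 with rfl | hz1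
        · rw [Zf, LFunctionTrivChar₁]
          simp
          nlinarith
        · have a4 := hL' z hz1 (by linarith)
          have a5 := cond_le le_rfl z
          have a6 : ‖z - 1‖ ≤ |z.im| + 3 := by
            refine (norm_le_abs_re_add_abs_im _).trans ?_
            simp only [sub_re, one_re, sub_im, one_im, sub_zero]
            linarith [abs_le.2 (⟨by linarith, by linarith⟩ : -3 ≤ z.re - 1 ∧ z.re - 1 ≤ 3)]
          have := sub_ne_zero.2 hz1
          rw [SWP.Zf_eq hz1, show (z - 1) * riemannZeta z =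
            1 + (z - 1) * (riemannZeta z - 1 / (z - 1)) by field_simp; ring]
          refine (norm_add_le _ _).trans ?_
          rw [norm_one, norm_mul]
          rw [Nat.cast_one, one_mul] at a5
          calc _ ≤ 1 + (|z.im| + 3) * (C1 * (|z.im| + 3)) := by
                gcongr; exact a4.trans (by gcongr)
            _ ≤ _ := by nlinarith [mul_nonneg hC1.le (sq_nonneg (|z.im| + 3))]
      · have a1 : 1 ≤ Real.sqrt (|s.im| + 4) := Real.one_le_sqrt.2 (by linarith)
        rw [add_mul]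
        refine add_le_add (mul_le_mul_of_nonneg_left ?_ hC1.le) (le_mul_of_one_le_right g0 a1)
        rw [← Real.sqrt_eq_rpow]
        refine Real.sqrt_le_sqrt ?_
        unfold An.cond
        rw [Nat.cast_one]
        linarith

end Pool.Agent.P.MP_26a8c3_nt.QE
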