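import Pool.Agent.P.MP_26a8c3_nt.QE.Psi
import Pool.Agent.P.MP_26a8c3_nt.Hyb10
import Pool.Agent.P.MP_26a8c3_nt.HybS.Sharp

/-! From a zero free half plane to the constant `2 - δ` for all `x ≤ (y / k) ^ A`. -/

namespace Pool.Agent.P.MP_26a8c3_nt.QE

open Finset Complex DirichletCharacter Filter
open scoped ArithmeticFunction.vonMangoldt

/-- the von Mangoldt function on a segment of a progression -/
lemma seg {E : ℝ} {k : ℕ} [NeZero k] {l : ℤ} (hl : IsCoprime l k) {X₀ X₁ : ℕ} (hX : X₀ ≤ X₁)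
    (h1 : ∀ χ : DirichletCharacter ℂ k, χ ≠ 1 → ∀ X ≤ X₁, ‖∑ n ∈ Icc 1 X, (Λ n : ℂ) * χ n‖ ≤ E)
    (h2 : ∀ X ≤ X₁, |∑ n ∈ Icc 1 X, Λ n - X| ≤ E) :
    k.totient * ∑ n ∈ (Ioc X₀ X₁).filter (fun n : ℕ => (k : ℤ) ∣ n - l), Λ n ≤
      X₁ - X₀ + k.totient * (2 * E) := by
  classical
  have hu : IsUnit (l : ZMod k) := (ZMod.coe_int_isUnit_iff_isCoprime l k).2 hl.symm
  have e1 : ((k.totient * ∑ n ∈ (Ioc X₀ X₁).filter (fun n : ℕ => (k : ℤ) ∣ n - l), Λ n : ℝ) : ℂ) =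
      ∑ χ : DirichletCharacter ℂ k, χ (l : ZMod k)⁻¹ * ∑ n ∈ Ioc X₀ X₁, (Λ n : ℂ) * χ n := by
    simp only [mul_sum, sum_filter, ofReal_sum]
    rw [sum_comm]
    refine sum_congr rfl fun n _ => ?_
    simp only [mul_left_comm _ (Λ n : ℂ), ← mul_sum, sum_char_inv_mul_char_eq ℂ hu,
      ← ZMod.intCast_eq_intCast_iff_dvd_sub, Int.cast_natCast]
    split_ifs <;> simp [mul_comm]
  have split : ∀ {M : Type} [AddCommGroup M] (f : ℕ → M),
      ∑ n ∈ Ioc X₀ X₁, f n = ∑ n ∈ Icc 1 X₁, f n - ∑ n ∈ Icc 1 X₀, f n := fun f => by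
    rw [eq_sub_iff_add_eq', show Icc 1 X₁ = Ioc 0 X₁ from rfl, show Icc 1 X₀ = Ioc 0 X₀ from rfl,
      sum_Ioc_consecutive f (Nat.zero_le _) hX]
  have hn : ∀ χ : DirichletCharacter ℂ k, ‖χ (l : ZMod k)⁻¹ * ∑ n ∈ Ioc X₀ X₁, (Λ n : ℂ) * χ n‖ ≤
      ‖∑ n ∈ Ioc X₀ X₁, (Λ n : ℂ) * χ n‖ := fun χ =>
    (norm_mul_le _ _).trans (mul_le_of_le_one_left (norm_nonneg _) (χ.norm_le_one _))
  have hb : ∀ χ : DirichletCharacter ℂ k, ‖χ (l : ZMod k)⁻¹ * ∑ n ∈ Ioc X₀ X₁, (Λ n : ℂ) * χ n‖ ≤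
      (if χ = 1 then (X₁ - X₀ : ℝ) else 0) + 2 * E := fun χ => by
    refine (hn χ).trans ?_
    split_ifs with h
    · refine (norm_sum_le _ _).trans ((sum_le_sum (g := fun n => Λ n) fun n _ => ?_).trans ?_)
      · rw [norm_mul, norm_real, Real.norm_of_nonneg ArithmeticFunction.vonMangoldt_nonneg]
        exact mul_le_of_le_one_right ArithmeticFunction.vonMangoldt_nonneg (χ.norm_le_one _)
      · rw [split]
        linarith [(abs_le.1 (h2 X₁ le_rfl)).2, (abs_le.1 (h2 X₀ hX)).1]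
    · rw [split]
      linarith [norm_sub_le (∑ n ∈ Icc 1 X₁, (Λ n : ℂ) * χ n) (∑ n ∈ Icc 1 X₀, (Λ n : ℂ) * χ n),
        h1 χ h X₁ le_rfl, h1 χ h X₀ hX]
  refine (Real.le_norm_self _).trans ?_
  rw [← norm_real, e1]
  refine (norm_sum_le _ _).trans ((sum_le_sum fun χ _ => hb χ).trans_eq ?_)
  rw [sum_add_distrib, sum_ite_eq', if_pos (mem_univ _), sum_const, nsmul_eq_mul, card_univ,
    ← Nat.card_eq_fintype_card, card_eq_totient_of_hasEnoughRootsOfUnity ℂ k]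

/-- the range below `(y / k) ^ (1 + η)` -/
theorem low {θ : ℝ} (hθ : θ < 1) (hZ : ZF θ) : ∃ η T₀ : ℝ, 0 < η ∧ η ≤ 1 ∧ ∀ k : ℕ, ∀ l : ℤ,
    ∀ x y : ℝ, 1 ≤ k → (k : ℝ) < y → y ≤ x → Int.gcd l (k : ℤ) = 1 → T₀ ≤ y / (k : ℝ) →
      x ≤ (y / (k : ℝ)) ^ (1 + η) →
        (({p : ℕ | p.Prime ∧ x - y < (p : ℝ) ∧ (p : ℝ) ≤ x ∧
            (p : ℤ) ≡ l [ZMOD (k : ℤ)]}.ncard : ℕ) : ℝ) <
          (2 - 1 / 4) * y / ((Nat.totient k : ℝ) * Real.log (y / (k : ℝ))) := by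
  classical
  obtain ⟨κ, C, k0, k1, C0, h1, h2⟩ := psi hθ hZ
  obtain ⟨c, c0, hc⟩ := log_pow_le (show (0 : ℝ) < 1 / 6 by norm_num)
  have ev : ∀ (D e : ℝ), 0 < e → ∀ᶠ T : ℝ in atTop, D ≤ T ^ e := fun D e he =>
    (tendsto_rpow_atTop he).eventually_ge_atTop D
  obtain ⟨T₀, hT₀⟩ := eventually_atTop.1 ((ev (36 * C) (κ / 2) (by positivity)).and
    ((ev (24 * c) (1 / 6) (by norm_num)).and (eventually_gt_atTop 18)))
  refine ⟨κ / 2, T₀, by positivity, by linarith, fun k l x y hk hky hyx hl hT hx => ?_⟩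
  have : NeZero k := ⟨by omega⟩
  obtain ⟨a1, a2, a3⟩ := hT₀ _ hT
  have hk' : (0 : ℝ) < k := by exact_mod_cast hk
  have hk1 : (1 : ℝ) ≤ k := by exact_mod_cast hk
  have hy : 0 < y := hk'.trans hky
  have hφ : (0 : ℝ) < k.totient := by exact_mod_cast Nat.totient_pos.2 hk
  have hφk : (k.totient : ℝ) ≤ k := by exact_mod_cast Nat.totient_le k
  have hφ1 : (1 : ℝ) ≤ k.totient := by exact_mod_cast Nat.totient_pos.2 hk
  set T := y / k with hTd
  have T0 : 0 < T := by linarith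
  have hL : 0 < Real.log T := Real.log_pos (by linarith)
  have hTy : k.totient * T ≤ y := by
    rw [hTd, ← mul_div_assoc, div_le_iff₀ hk']; nlinarith
  set X₀ := ⌊x - y⌋₊ with hX0
  set X₁ := ⌊x⌋₊ with hX1
  have b0 : X₀ ≤ X₁ := Nat.floor_le_floor (by linarith)
  have b1 : (X₁ : ℝ) ≤ x := Nat.floor_le (by linarith)
  have b2 : x - y < X₀ + 1 := Nat.lt_floor_add_one _
  have hle : ∀ X ≤ X₁, (X : ℝ) ≤ x := fun X h => le_trans (by exact_mod_cast h) b1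
  have hs := seg (E := C * x ^ (1 - κ)) (Int.isCoprime_iff_gcd_eq_one.2 hl) b0
    (fun χ hχ X hX => h1 k χ X x hχ (by linarith) (hle X hX))
    fun X hX => h2 X x (by linarith) (hle X hX)
  set S := (Ioc X₀ X₁).filter (fun n : ℕ => (k : ℤ) ∣ n - l) with hS
  have hset : {p : ℕ | p.Prime ∧ x - y < (p : ℝ) ∧ (p : ℝ) ≤ x ∧ (p : ℤ) ≡ l [ZMOD (k : ℤ)]} =
      ((S.filter Nat.Prime : Finset ℕ) : Set ℕ) := by
    ext p
    simp only [hS, Set.mem_ofPred_eq, coe_filter, mem_filter, mem_Ioc, hX0, hX1,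
      Nat.floor_lt (show 0 ≤ x - y by linarith), Nat.le_floor_iff (show 0 ≤ x by linarith),
      ← Int.modEq_iff_dvd]
    exact ⟨fun h => ⟨⟨⟨h.2.1, h.2.2.1⟩, h.2.2.2.symm⟩, h.1⟩,
      fun h => ⟨h.2, h.1.1.1, h.1.1.2, h.1.2.symm⟩⟩
  rw [hset, Set.ncard_coe_finset]
  set z := T ^ (2 / 3 : ℝ) with hz
  have z1 : 1 ≤ z := Real.one_le_rpow (by linarith) (by norm_num)
  have lz : Real.log z = 2 / 3 * Real.log T := Real.log_rpow T0 _
  have c1 : (((S.filter Nat.Prime).filter fun p : ℕ => (p : ℝ) ≤ z).card : ℝ) ≤ z := by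
    refine le_trans ?_ (Nat.floor_le (show 0 ≤ z by linarith))
    have := card_le_card (show (S.filter Nat.Prime).filter (fun p : ℕ => (p : ℝ) ≤ z) ⊆ Icc 1 ⌊z⌋₊
      from fun p hp => by
        simp only [mem_filter] at hp
        exact mem_Icc.2 ⟨hp.1.2.one_le, Nat.le_floor hp.2⟩)
    rw [Nat.card_Icc, Nat.add_sub_cancel] at this
    exact_mod_cast this
  have c2 : (((S.filter Nat.Prime).filter fun p : ℕ => ¬ (p : ℝ) ≤ z).card : ℝ) * Real.log z ≤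
      ∑ n ∈ S, Λ n := by
    rw [← nsmul_eq_mul]
    refine (card_nsmul_le_sum _ (fun n => Λ n) _ fun p hp => ?_).trans
      (sum_le_sum_of_subset_of_nonneg ((filter_subset _ _).trans (filter_subset _ _))
        fun _ _ _ => ArithmeticFunction.vonMangoldt_nonneg)
    simp only [mem_filter, not_le] at hp
    rw [ArithmeticFunction.vonMangoldt_apply_prime hp.1.2]
    exact Real.log_le_log (by linarith) hp.2.le
  have c3 := card_filter_add_card_filter_not (s := S.filter Nat.Prime) fun p : ℕ => (p : ℝ) ≤ z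
  have d1 : 36 * C * x ^ (1 - κ) ≤ T := by
    have x0 : 0 ≤ x := by linarith
    calc _ ≤ T ^ (κ / 2) * (T ^ (1 + κ / 2)) ^ (1 - κ) := by gcongr
      _ = T ^ (κ / 2 + (1 + κ / 2) * (1 - κ)) := by rw [← Real.rpow_mul T0.le, ← Real.rpow_add T0]
      _ ≤ T ^ (1 : ℝ) := Real.rpow_le_rpow_of_exponent_le (by linarith) (by nlinarith)
      _ = T := Real.rpow_one T
  have d2 : 24 * (z * Real.log T) ≤ T := by
    have e1 : Real.log T ≤ c * T ^ (1 / 6 : ℝ) := by nlinarith [hc T (by linarith)]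
    calc _ ≤ 24 * (z * (c * T ^ (1 / 6 : ℝ))) := by gcongr
      _ = 24 * c * T ^ (1 / 6 : ℝ) * z := by ring
      _ ≤ T ^ (1 / 6 : ℝ) * T ^ (1 / 6 : ℝ) * z := by gcongr
      _ = T := by rw [hz, ← Real.rpow_add T0, ← Real.rpow_add T0]; norm_num
  rw [lt_div_iff₀ (by positivity), ← c3, Nat.cast_add]
  rw [lz] at c2
  generalize (((S.filter Nat.Prime).filter fun p : ℕ => (p : ℝ) ≤ z).card : ℝ) = n₁ at c1
  generalize (((S.filter Nat.Prime).filter fun p : ℕ => ¬ (p : ℝ) ≤ z).card : ℝ) = n₂ at c2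
  have f1 : k.totient * (n₁ * Real.log T) ≤ k.totient * (T / 24) := by
    gcongr
    nlinarith
  have f2 := mul_le_mul_of_nonneg_left c2 hφ.le
  have f3 := mul_le_mul_of_nonneg_left d1 hφ.le
  nlinarith

/-- the join -/
theorem join {θ : ℝ} (hθ : θ < 1) (hZ : ZF θ) (A : ℝ) :
    ∃ δ : ℝ, 0 < δ ∧ ∀ k : ℕ, ∀ l : ℤ, ∀ x y : ℝ,
      1 ≤ k → (k : ℝ) < y → y ≤ x → Int.gcd l (k : ℤ) = 1 → x ≤ (y / (k : ℝ)) ^ A →
        (({p : ℕ | p.Prime ∧ x - y < (p : ℝ) ∧ (p : ℝ) ≤ x ∧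
            (p : ℤ) ≡ l [ZMOD (k : ℤ)]}.ncard : ℕ) : ℝ) <
          (2 - δ) * y / ((Nat.totient k : ℝ) * Real.log (y / (k : ℝ))) := by
  obtain ⟨η, T₁, hη, hη1, hlow⟩ := low hθ hZ
  have hA := le_max_right A 1
  obtain ⟨T₂, hT₂, h⟩ := Hyb.large hη hη1 hA
  have hT₀ : 1 ≤ max T₁ T₂ := hT₂.trans (le_max_right _ _)
  have hc : 0 < 5 / 2 - Real.log 5 := by linarith [Real.log_five_lt_d9]
  set c := 5 / 2 - Real.log 5 with hcd
  have hL : 0 ≤ Real.log (max T₁ T₂) := Real.log_nonneg hT₀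
  refine ⟨min (min (1 / 4) (η ^ 2 / (10 ^ 15 * max A 1 ^ 6))) (2 * c / (Real.log (max T₁ T₂) + c)),
    lt_min (lt_min (by norm_num) (by positivity)) (by positivity),
    fun k l x y hk hky hyx hl h2 => ?_⟩
  have hk' : (0 : ℝ) < k := by exact_mod_cast hk
  have hy : 0 < y := hk'.trans hky
  have hT1 : 1 < y / k := (one_lt_div hk').2 hky
  have hl0 : 0 < Real.log (y / k) := Real.log_pos hT1
  have hφ : (0 : ℝ) < k.totient := by exact_mod_cast Nat.totient_pos.2 hk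
  by_cases hT : max T₁ T₂ ≤ y / k
  · rcases le_total x ((y / k) ^ (1 + η)) with h1 | h1
    · refine (hlow k l x y hk hky hyx hl ((le_max_left _ _).trans hT) h1).trans_le ?_
      gcongr
      exact (min_le_left _ _).trans (min_le_left _ _)
    · refine (h k l x y hk hyx hl ((le_max_right _ _).trans hT) h1 (h2.trans
        (Real.rpow_le_rpow_of_exponent_le hT1.le (le_max_left _ _)))).trans_le ?_
      gcongr
      exact (min_le_left _ _).trans (min_le_right _ _)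
  · obtain ⟨l', S, hS, hcard⟩ := HybS.exists_good (k := k) hk l x y
    rw [hcard]
    refine (HybS.sharp_fin hS hk hky).trans_le ?_
    have a1 : Real.log (y / k) ≤ Real.log (max T₁ T₂) :=
      Real.log_le_log (by positivity) (not_le.1 hT).le
    have a2 := min_le_right (min (1 / 4) (η ^ 2 / (10 ^ 15 * max A 1 ^ 6)))
      (2 * c / (Real.log (max T₁ T₂) + c))
    have a3 : 0 ≤ min (min (1 / 4) (η ^ 2 / (10 ^ 15 * max A 1 ^ 6)))
        (2 * c / (Real.log (max T₁ T₂) + c)) :=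
      le_min (le_min (by norm_num) (by positivity)) (by positivity)
    generalize min (min (1 / 4) (η ^ 2 / (10 ^ 15 * max A 1 ^ 6)))
      (2 * c / (Real.log (max T₁ T₂) + c)) = δ at a2 a3 ⊢
    rw [le_div_iff₀ (by positivity)] at a2
    rw [← hcd, div_le_div_iff₀ (by positivity) (by positivity)]
    have a4 : δ * (Real.log (y / k) + c) ≤ 2 * c := le_trans (by gcongr) a2
    nlinarith [mul_le_mul_of_nonneg_left a4 (mul_pos hy hφ).le]

end Pool.Agent.P.MP_26a8c3_nt.QE
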