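import Pool.Agent.P.MP_26a8c3_nt.QE.EulB
import Pool.Agent.P.MP_26a8c3_nt.QE.Join
import Pool.Agent.P.MP_26a8c3_nt.QO.Eis

/-! The zero free half plane from smoothed Moebius sums over the Eisenstein integers. -/

namespace Pool.Agent.P.MP_26a8c3_nt.QE

open UniqueFactorizationMonoid Pool.Agent.P.MP_26a8c3_nt.QO

theorem eisLike : EisLike (N : O →* ℕ) (starRingEnd O) w Primary where
  one := primary_one
  mul _ _ := Primary.mul
  ex c hc p hp := by
    obtain ⟨u, hu, h⟩ := exists_primary (x := p) fun h => hc.not_lam_dvd (h.trans hp)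
    exact ⟨_, h, associated_unit_mul_right p u hu⟩
  uniq _ _ := Primary.eq_of_associated
  norm x := (mul_star_eq x).symm
  unit _ h := isUnit_iff_N.2 h
  nat := N_natCast
  pos _ h := N_eq_zero.1 h
  mod x := by
    by_cases h : lam ∣ x
    · have := (lam_dvd_iff_N x).1 h
      change N x % 3 ≠ 2
      omega
    · have := N_mod_three h
      change N x % 3 ≠ 2
      omega
  ww := w_rel
  sw := star_w
  ss := star_star
  ndvd p x h := by
    have h1 := ((intCast_dvd_iff p _).1 (by simpa using h)).2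
    simp only [QuadraticAlgebra.im_sub, QuadraticAlgebra.im_intCast, w_im, zero_sub, dvd_neg] at h1
    exact Nat.dvd_one.1 (by exact_mod_cast h1)
  pm _ := Iff.rfl

theorem summable_N {t : ℝ} (ht : 1 < t) : Summable fun c : O => (N c : ℝ) ^ (-t) := by
  have h := (EisensteinSeries.summable_one_div_norm_rpow (k := 2 * t) (by linarith)).comp_injective
    (i := fun z : O => ![z.re, z.im]) fun a b e =>
      QuadraticAlgebra.ext (congrFun e 0) (congrFun e 1)
  refine Summable.of_nonneg_of_le (fun _ => by positivity) (fun z => ?_)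
    (h.mul_left ((3 / 4 : ℝ) ^ (-t)))
  rcases eq_or_ne z 0 with rfl | hz
  · rw [map_zero, Nat.cast_zero, Real.zero_rpow (by linarith)]
    exact mul_nonneg (by positivity) (Real.rpow_nonneg (norm_nonneg _) _)
  have h0 : 0 < ‖(![z.re, z.im] : Fin 2 → ℤ)‖ := norm_pos_iff.2 fun e =>
    hz (QuadraticAlgebra.ext (congrFun e 0) (congrFun e 1))
  simp only [Function.comp]
  rw [show -(2 * t) = (2 : ℕ) * (-t) by push_cast; ring, Real.rpow_natCast_mul h0.le,
    ← Real.mul_rpow (by norm_num) (by positivity)]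
  refine Real.rpow_le_rpow_of_nonpos (by positivity) ?_ (by linarith)
  obtain ⟨h1, h2⟩ := abs_le_of_N z
  have h1' : 3 * (z.re : ℝ) ^ 2 ≤ 4 * N z := by exact_mod_cast h1
  have h2' : 3 * (z.im : ℝ) ^ 2 ≤ 4 * N z := by exact_mod_cast h2
  rw [EisensteinSeries.norm_eq_max_natAbs]
  simp only [Matrix.cons_val_zero, Matrix.cons_val_one, Matrix.cons_val_fin_one, Nat.cast_max,
    Nat.cast_natAbs, Int.cast_abs]
  rcases max_cases |(z.re : ℝ)| |(z.im : ℝ)| with e | e <;> rw [e.1, sq_abs] <;> linarith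

/-- power saving over `O` implies the zero free half plane; `u` is any form of the summand -/
theorem zf_O {θ : ℝ} (h0 : 0 ≤ θ) (h1 : θ ≤ 1)
    (hZ : ∀ (q : ℕ) (χ : DirichletCharacter ℂ q), 0 < q → 36 ∣ q → ∃ (B : ℝ) (u : ℝ → O → ℂ),
      (∀ X c, ¬ Primary c → u X c = 0) ∧
      (∀ X c, Primary c → u X c = (moebius c : ℂ) * χ (N c) *
        ((Real.exp (-(Real.log (N c) - Real.log X) ^ 2) : ℝ) : ℂ)) ∧
      ∀ X : ℝ, 1 ≤ X → ‖∑' c, u X c‖ ≤ B * X ^ θ) : ZF θ := by
  refine eisLike.zf (fun t ht => (summable_N ht).subtype _) h0 h1 fun q χ a b => ?_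
  obtain ⟨B, u, u0, u1, hB⟩ := hZ q χ a b
  refine ⟨B, fun X hX => le_trans (le_of_eq ?_) (hB X hX)⟩
  rw [← tsum_subtype_eq_of_support_subset (f := u X) (s := {c | Primary c})
    fun c hc => by_contra fun h => hc (u0 X c h)]
  congr 1
  exact tsum_congr fun c => (u1 X c.1 c.2).symm

end Pool.Agent.P.MP_26a8c3_nt.QE
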