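import Pool.Agent.P.MP_26a8c3_nt.QE.Fin
import Pool.Agent.P.MP_26a8c3_nt.QO.All
import Pool.Agent.P.MP_26a8c3_nt.QL.All
import Pool.Agent.P.MP_26a8c3_nt.QB.All
import Pool.Agent.P.MP_26a8c3_nt.QT.As
import Pool.Agent.P.MP_26a8c3_nt.QT.Aut
import Pool.Agent.P.MP_26a8c3_nt.QT.Bd
import Pool.Agent.P.MP_26a8c3_nt.QT.Box
import Pool.Agent.P.MP_26a8c3_nt.QT.Cls
import Pool.Agent.P.MP_26a8c3_nt.QT.Coef
import Pool.Agent.P.MP_26a8c3_nt.QT.Cont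
import Pool.Agent.P.MP_26a8c3_nt.QT.Cst
import Pool.Agent.P.MP_26a8c3_nt.QT.Four
import Pool.Agent.P.MP_26a8c3_nt.QT.Glue
import Pool.Agent.P.MP_26a8c3_nt.QT.Gs
import Pool.Agent.P.MP_26a8c3_nt.QT.Hec
import Pool.Agent.P.MP_26a8c3_nt.QT.Hk
import Pool.Agent.P.MP_26a8c3_nt.QT.Inn
import Pool.Agent.P.MP_26a8c3_nt.QT.Kub9
import Pool.Agent.P.MP_26a8c3_nt.QT.Loc
import Pool.Agent.P.MP_26a8c3_nt.QT.Nz
import Pool.Agent.P.MP_26a8c3_nt.QT.Orth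
import Pool.Agent.P.MP_26a8c3_nt.QT.Vor2
import Pool.Agent.P.MP_26a8c3_nt.QV.Ball
import Pool.Agent.P.MP_26a8c3_nt.QV.D
import Pool.Agent.P.MP_26a8c3_nt.QV.Exp
import Pool.Agent.P.MP_26a8c3_nt.QV.Gau
import Pool.Agent.P.MP_26a8c3_nt.QV.Har
import Pool.Agent.P.MP_26a8c3_nt.QV.Ins
import Pool.Agent.P.MP_26a8c3_nt.QV.Sum
import Pool.Agent.P.MP_26a8c3_nt.QV.TS
import Pool.Agent.P.MP_26a8c3_nt.QV.Th
import Pool.Agent.P.MP_26a8c3_nt.QV.Tw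

/-! Assembly of all layers. -/

namespace Pool.Agent.P.MP_26a8c3_nt.QE

open Pool.Agent.P.MP_26a8c3_nt Pool.Agent.P.MP_26a8c3_nt.QO

theorem sTheta : S_Theta :=
  have b := QT.pBd alg
  have t := QT.pTr
  have f := QT.pFour alg b
  have o := QT.pOrth
  have c := QT.pCst alg
  have i := QT.pInn b f o c
  have l := QT.pCls b t
  have h := QT.pHec alg (QT.pGs alg) f
  have k := QT.pHk alg h
  have a := QT.pAut b t QT.pCont (QT.pLoc f o QT.pCont)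
  QT.pTheta (QT.pAs f c (QT.pCoef f o (QT.pBox1 b t i l) (QT.pBox2 b t i l))) h k (QT.pVor2 alg a)
    (QT.pNz k a)

theorem sV : S_V :=
  QV.v_of QV.pTh (QV.pBall QV.pDec (QV.pIns alg) (QV.pExp QV.pSum (QV.pTw alg QV.pSum))
    (QV.pD (QV.pTS alg (QL.ls alg) QV.pHar)) QV.pHar) QV.pGau sTheta

theorem sZ : S_Z := QB.zz alg sV

theorem zf : ZF (1999 / 2000) := zf_of sZ

end Pool.Agent.P.MP_26a8c3_nt.QE
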