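import Mathlib

/-! Euler products for Moebius sums over normalised elements of a factorial ring. -/

namespace Pool.Agent.P.MP_26a8c3_nt.QE

open Finset UniqueFactorizationMonoid

section

variable {R : Type*} [CommRing R] [IsDomain R] [UniqueFactorizationMonoid R] {Pm : R → Prop}

/-- a system of normalised elements -/
structure Nrm (Pm : R → Prop) : Prop where
  one : Pm 1
  mul : ∀ a b, Pm a → Pm b → Pm (a * b)
  ex : ∀ c, Pm c → ∀ p, p ∣ c → ∃ p', Pm p' ∧ Associated p p'
  uniq : ∀ a b, Pm a → Pm b → Associated a b → a = b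

/-- normalised primes -/
abbrev PP (Pm : R → Prop) := {p : R // Prime p ∧ Pm p}

/-- the product of a finite set of normalised primes -/
def pr (S : Finset (PP Pm)) : R := ∏ p ∈ S, p.1

omit [IsDomain R] [UniqueFactorizationMonoid R] in
lemma Nrm.pr_mem (h : Nrm Pm) (S : Finset (PP Pm)) : Pm (pr S) :=
  prod_induction _ Pm h.mul h.one fun p _ => p.2.2

omit [UniqueFactorizationMonoid R] in
lemma Nrm.dvd_pr (h : Nrm Pm) {p : PP Pm} {S : Finset (PP Pm)} : p.1 ∣ pr S ↔ p ∈ S := by
  refine ⟨fun hp => ?_, fun hp => dvd_prod_of_mem _ hp⟩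
  obtain ⟨q, hq, hpq⟩ := p.2.1.exists_mem_finset_dvd hp
  rwa [Subtype.ext (h.uniq _ _ p.2.2 q.2.2 (p.2.1.associated_of_dvd q.2.1 hpq))]

omit [UniqueFactorizationMonoid R] in
lemma Nrm.pr_inj (h : Nrm Pm) : Function.Injective (pr : Finset (PP Pm) → R) := fun S T e => by
  ext p
  rw [← h.dvd_pr, ← h.dvd_pr, e]

lemma Nrm.exists_pr (h : Nrm Pm) {c : R} (hc : Pm c) (hs : Squarefree c) :
    ∃ S : Finset (PP Pm), pr S = c := by
  classical
  have key : ∀ a : R, a ∣ c → ∃ S : Finset (PP Pm), Associated (pr S) a := by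
    intro a
    induction a using induction_on_prime with
    | h₁ => exact fun h0 => absurd (zero_dvd_iff.1 h0) hs.ne_zero
    | h₂ x hx => exact fun _ => ⟨∅, (associated_one_iff_isUnit.2 hx).symm⟩
    | h₃ a p _ hp ih =>
      intro hd
      obtain ⟨S, hS⟩ := ih ((dvd_mul_left a p).trans hd)
      obtain ⟨q, hq, hpq⟩ := h.ex c hc p ((dvd_mul_right p a).trans hd)
      have hn : (⟨q, hpq.prime hp, hq⟩ : PP Pm) ∉ S := fun hm =>
        hp.not_isUnit (hs p ((mul_dvd_mul_left p (hpq.dvd.trans ((h.dvd_pr.2 hm).trans hS.dvd))).trans hd))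
      exact ⟨insert ⟨q, hpq.prime hp, hq⟩ S, by
        rw [pr, prod_insert hn]; exact hpq.symm.mul_mul hS⟩
  obtain ⟨S, hS⟩ := key c dvd_rfl
  exact ⟨S, h.uniq _ _ (h.pr_mem S) hc hS⟩

lemma Nrm.moebius_pr (h : Nrm Pm) (S : Finset (PP Pm)) : moebius (pr S) = (-1) ^ S.card := by
  classical
  induction S using Finset.induction_on with
  | empty => simp [pr]
  | insert p S hp ih =>
    rw [pr, prod_insert hp, card_insert_of_notMem hp, ← pr, IsRelPrime.moebius_mul
      (p.2.1.irreducible.isRelPrime_iff_not_dvd.2 (mt h.dvd_pr.1 hp)), ih,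
      p.2.1.irreducible.moebius_eq]
    ring

/-- the Euler product of a Moebius sum -/
theorem Nrm.hasProd (h : Nrm Pm) (F : R →* ℂ) (hF : Summable fun p : PP Pm => ‖F p.1‖) :
    HasProd (fun p : PP Pm => 1 - F p.1) (∑' c : {c // Pm c}, (moebius c.1 : ℂ) * F c.1) := by
  have h1 := hasProd_one_add_of_hasSum_prod (summable_finsetProd_of_summable_norm
    (f := fun p : PP Pm => -F p.1) (by simpa using hF)).hasSum
  simp only [← sub_eq_add_neg] at h1
  refine Eq.subst (motive := HasProd _) (Eq.symm ?_) h1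
  have hi : Function.Injective fun S : Finset (PP Pm) => (⟨pr S, h.pr_mem S⟩ : {c // Pm c}) :=
    fun S T e => h.pr_inj (congrArg Subtype.val e)
  rw [← hi.tsum_eq]
  · refine tsum_congr fun S => ?_
    simp only [h.moebius_pr]
    rw [pr, map_prod, prod_neg]
    push_cast
    rfl
  · intro c hc
    by_cases hs : Squarefree c.1
    · obtain ⟨S, hS⟩ := h.exists_pr c.2 hs
      exact ⟨S, Subtype.ext hS⟩
    · simp [hs] at hc

end

/-- regrouping an Euler product along the fibres of a map -/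
theorem euler_fibre {ι κ : Type*} {f : ι → ℂ} {D A B : ℂ} (hD : HasProd f D) (u : ι → κ)
    {a b : κ → ℂ} (hf : ∀ k, HasProd (fun i : {i // u i = k} => f i.1) (a k * b k))
    (ha : HasProd (fun k => (a k)⁻¹) A) (hb : HasProd (fun k => (b k)⁻¹) B)
    (a0 : ∀ k, a k ≠ 0) (b0 : ∀ k, b k ≠ 0) : D * (A * B) = 1 := by
  have h1 := (((Equiv.sigmaFiberEquiv u).hasProd_iff.2 hD).sigma hf).mul (ha.mul hb)
  refine h1.unique ?_
  convert hasProd_one using 2 with k
  have := a0 k
  have := b0 k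
  field_simp

end Pool.Agent.P.MP_26a8c3_nt.QE
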