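import Mathlib

/-! A power saving for smoothed Moebius sums gives a zero free half plane. -/

namespace Pool.Agent.P.MP_26a8c3_nt.QE

open Complex MeasureTheory Set Filter Asymptotics Topology DirichletCharacter

/-- weights that are bounded and decay faster than every power -/
def Wt (W : ℝ → ℂ) : Prop :=
  ContinuousOn W (Ioi 0) ∧ ∀ K : ℝ, 0 ≤ K → ∃ B : ℝ, ∀ y : ℝ, 0 < y → ‖W y‖ ≤ B * y ^ (-K)

lemma Wt.norm {W : ℝ → ℂ} (h : Wt W) : Wt fun y => ((‖W y‖ : ℝ) : ℂ) :=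
  ⟨continuous_ofReal.comp_continuousOn h.1.norm, fun K hK => by simpa using h.2 K hK⟩

lemma Wt.top {W : ℝ → ℂ} (h : Wt W) {K : ℝ} (hK : 0 ≤ K) : W =O[atTop] fun y : ℝ => y ^ (-K) := by
  obtain ⟨B, hB⟩ := h.2 K hK
  refine IsBigO.of_bound B ?_
  filter_upwards [eventually_gt_atTop 0] with y hy
  rw [Real.norm_of_nonneg (by positivity)]
  exact hB y hy

lemma Wt.bot {W : ℝ → ℂ} (h : Wt W) : W =O[𝓝[>] 0] fun y : ℝ => y ^ (-(0 : ℝ)) := by
  obtain ⟨B, hB⟩ := h.2 0 le_rfl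
  refine IsBigO.of_bound B ?_
  filter_upwards [self_mem_nhdsWithin] with y hy
  have hy' : (0 : ℝ) < y := hy
  rw [Real.norm_of_nonneg (by positivity)]
  exact hB y hy'

lemma Wt.conv {W : ℝ → ℂ} (h : Wt W) {s : ℂ} (hs : 0 < s.re) : MellinConvergent W s :=
  mellinConvergent_of_isBigO_rpow (h.1.locallyIntegrableOn measurableSet_Ioi)
    (h.top (K := s.re + 1) (by linarith)) (by linarith) h.bot hs

lemma Wt.diff {W : ℝ → ℂ} (h : Wt W) {s : ℂ} (hs : 0 < s.re) : DifferentiableAt ℂ (mellin W) s :=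
  mellin_differentiableAt_of_isBigO_rpow (h.1.locallyIntegrableOn measurableSet_Ioi)
    (h.top (K := s.re + 1) (by linarith)) (by linarith) h.bot hs

lemma mel_scale (W : ℝ → ℂ) {n : ℝ} (hn : 0 < n) (s : ℂ) :
    mellin (fun t => W (n / t)) (-s) = (n : ℂ) ^ (-s) * mellin W s := by
  have h := mellin_comp_inv (fun u => W (n * u)) (-s)
  rw [neg_neg, mellin_comp_mul_left W s hn, smul_eq_mul] at h
  simpa only [div_eq_mul_inv] using h

lemma conv_scale {W : ℝ → ℂ} {n : ℝ} (hn : 0 < n) {s : ℂ} (h : MellinConvergent W s) :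
    MellinConvergent (fun t => W (n / t)) (-s) := by
  have h1 := (MellinConvergent.comp_rpow (f := fun u => W (n * u)) (s := -s) (a := -1)
    (by norm_num)).2 (by
      rw [show -s / ((-1 : ℝ) : ℂ) = s by push_cast; ring]
      exact (MellinConvergent.comp_mul_left hn).2 h)
  simpa only [Real.rpow_neg_one, div_eq_mul_inv] using h1

theorem cont {C : Type*} [Countable C] (N : C → ℕ) (hN : ∀ c, 1 ≤ N c) (a : C → ℂ)
    (ha : ∀ c, ‖a c‖ ≤ 1) (hs : ∀ σ : ℝ, 1 < σ → Summable fun c => (N c : ℝ) ^ (-σ))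
    {W : ℝ → ℂ} (hW : Wt W) {θ B : ℝ}
    (hB : ∀ X : ℝ, 1 ≤ X → ‖∑' c, a c * W (N c / X)‖ ≤ B * X ^ θ) :
    ∃ G : ℂ → ℂ, (∀ s : ℂ, θ < s.re → DifferentiableAt ℂ G s) ∧
      ∀ s : ℂ, 1 < s.re → G s = mellin W s * ∑' c, a c * (N c : ℂ) ^ (-s) := by
  have hN0 : ∀ c, (0 : ℝ) < N c := fun c => by exact_mod_cast hN c
  set A : ℝ → ℂ := fun X => ∑' c, a c * W (N c / X) with hA
  have key : ∀ K : ℝ, 0 ≤ K → ∃ D : ℝ, 0 ≤ D ∧ ∀ X : ℝ, 0 < X → ∀ c,
      ‖a c * W (N c / X)‖ ≤ D * X ^ K * (N c : ℝ) ^ (-K) := fun K hK => by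
    obtain ⟨D, hD⟩ := hW.2 K hK
    have D0 : 0 ≤ D := by simpa using (norm_nonneg _).trans (hD 1 one_pos)
    refine ⟨D, D0, fun X hX c => ?_⟩
    have h1 := hD (N c / X) (div_pos (hN0 c) hX)
    rw [Real.div_rpow (hN0 c).le hX.le, Real.rpow_neg hX.le, div_inv_eq_mul] at h1
    rw [norm_mul]
    calc _ ≤ 1 * (D * ((N c : ℝ) ^ (-K) * X ^ K)) := by gcongr; exact ha c
      _ = _ := by ring
  have hc : ContinuousOn A (Ioi 0) := fun X hX => by
    obtain ⟨D, D0, hD⟩ := key 2 (by norm_num)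
    have hX' : (0 : ℝ) < X := hX
    have h1 : ContinuousOn A (Ioo 0 (X + 1)) := by
      refine continuousOn_tsum (u := fun c => D * (X + 1) ^ (2 : ℝ) * (N c : ℝ) ^ (-(2 : ℝ)))
        (fun c => continuousOn_const.mul (hW.1.comp (continuousOn_const.div continuousOn_id
          fun y hy => hy.1.ne') fun y hy => div_pos (hN0 c) hy.1))
        ((hs 2 (by norm_num)).mul_left _) fun c y hy => (hD y hy.1 c).trans ?_
      have := hN0 c
      have := hy.1
      gcongr
      exact hy.2.le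
    exact (h1.continuousAt (Ioo_mem_nhds hX' (by linarith))).continuousWithinAt
  refine ⟨fun s => mellin A (-s), fun s h => ?_, fun s h => ?_⟩
  · set K := max s.re 1 + 1 with hK
    have K1 : 1 < K := by have := le_max_right s.re 1; linarith
    have K2 : s.re < K := by have := le_max_left s.re 1; linarith
    obtain ⟨D, D0, hD⟩ := key K (by linarith)
    refine DifferentiableAt.comp s (g := mellin A) (f := fun s : ℂ => -s)
      (mellin_differentiableAt_of_isBigO_rpow (a := -θ) (b := -K)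
        (hc.locallyIntegrableOn measurableSet_Ioi) (IsBigO.of_bound B ?_) (by simpa using h)
        (IsBigO.of_bound (D * ∑' c, (N c : ℝ) ^ (-K)) ?_) (by simpa using K2)) (by fun_prop)
    · filter_upwards [eventually_ge_atTop 1] with X hX
      rw [Real.norm_of_nonneg (by positivity), neg_neg]
      exact hB X hX
    · filter_upwards [self_mem_nhdsWithin] with X hX
      have hX' : (0 : ℝ) < X := hX
      rw [Real.norm_of_nonneg (by positivity), neg_neg]
      refine (tsum_of_norm_bounded ((hs K K1).mul_left (D * X ^ K)).hasSum (hD X hX')).trans_eq ?_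
      rw [tsum_mul_left]; ring
  · have h0 : 0 < s.re := by linarith
    have hint : ∀ c, IntegrableOn (fun t : ℝ => (t : ℂ) ^ (-s - 1) • (a c * W (N c / t))) (Ioi 0) :=
      fun c => (conv_scale (hN0 c) (hW.conv h0)).const_smul (a c)
    have hnorm : ∀ c, ∫ t in Ioi (0 : ℝ), ‖(t : ℂ) ^ (-s - 1) • (a c * W (N c / t))‖ ≤
        (N c : ℝ) ^ (-s.re) * ‖mellin (fun y => ((‖W y‖ : ℝ) : ℂ)) s.re‖ := fun c => by
      have e1 := mel_scale (fun y => ((‖W y‖ : ℝ) : ℂ)) (hN0 c) (s.re : ℂ)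
      have e2 : ((∫ t in Ioi (0 : ℝ), ‖(t : ℂ) ^ (-s - 1) • (a c * W (N c / t))‖ : ℝ) : ℂ) =
          (‖a c‖ : ℝ) * mellin (fun t => ((‖W (N c / t)‖ : ℝ) : ℂ)) (-(s.re : ℂ)) := by
        rw [← integral_complex_ofReal, mellin, ← integral_const_mul]
        refine setIntegral_congr_fun measurableSet_Ioi fun t ht => ?_
        have ht' : (0 : ℝ) < t := ht
        simp only [smul_eq_mul, norm_mul, norm_cpow_eq_rpow_re_of_pos ht', sub_re, neg_re, one_re]
        rw [show -(s.re : ℂ) - 1 = ((-s.re - 1 : ℝ) : ℂ) by push_cast; ring, ← ofReal_cpow ht'.le]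
        push_cast
        ring
      refine (Real.le_norm_self _).trans ?_
      rw [← norm_real, e2, e1, norm_mul, norm_mul, norm_cpow_eq_rpow_re_of_pos (hN0 c), norm_real,
        norm_norm, neg_re, ofReal_re]
      exact mul_le_of_le_one_left (by positivity) (ha c)
    have hsum := hasSum_integral_of_summable_integral_norm hint
      (Summable.of_nonneg_of_le (fun c => integral_nonneg fun t => norm_nonneg _) hnorm
        ((hs _ h).mul_right _))
    have e3 : ∀ c, ∫ t in Ioi (0 : ℝ), (t : ℂ) ^ (-s - 1) • (a c * W (N c / t)) =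
        mellin W s * (a c * (N c : ℂ) ^ (-s)) := fun c => by
      have e1 := mel_scale W (hN0 c) s
      have e2 := mellin_const_smul (fun t => W (N c / t)) (-s) (a c)
      rw [e1] at e2
      refine Eq.trans e2 ?_
      rw [smul_eq_mul, ofReal_natCast]; ring
    simp only [e3] at hsum
    rw [← tsum_mul_left, hsum.tsum_eq]
    simp only [mellin, hA, smul_eq_mul, tsum_mul_left]

/-- the entire function `(s - 1) L(s, χ)` -/
noncomputable def Pf {q : ℕ} [NeZero q] (χ : DirichletCharacter ℂ q) (s : ℂ) : ℂ :=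
  open Classical in if χ = 1 then LFunctionTrivChar₁ q s else (s - 1) * LFunction χ s

lemma Pf_diff {q : ℕ} [NeZero q] (χ : DirichletCharacter ℂ q) : Differentiable ℂ (Pf χ) := by
  unfold Pf
  split_ifs with h
  · exact differentiable_LFunctionTrivChar₁ q
  · exact (differentiable_id.sub_const 1).mul (differentiable_LFunction h)

lemma Pf_eq {q : ℕ} [NeZero q] (χ : DirichletCharacter ℂ q) {s : ℂ} (hs : s ≠ 1) :
    Pf χ s = (s - 1) * LFunction χ s := by
  unfold Pf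
  split_ifs with h
  · rw [LFunctionTrivChar₁, Function.update_of_ne hs, LFunctionTrivChar, h]
  · rfl

theorem zero_free {C : Type*} [Countable C] (N : C → ℕ) (hN : ∀ c, 1 ≤ N c) (a : C → ℂ)
    (ha : ∀ c, ‖a c‖ ≤ 1) (hs : ∀ σ : ℝ, 1 < σ → Summable fun c => (N c : ℝ) ^ (-σ))
    {W : ℝ → ℂ} (hW : Wt W) {θ B : ℝ} (hθ : 0 ≤ θ) (hθ1 : θ ≤ 1)
    (hB : ∀ X : ℝ, 1 ≤ X → ‖∑' c, a c * W (N c / X)‖ ≤ B * X ^ θ)
    {q₁ q₂ : ℕ} [NeZero q₁] [NeZero q₂] (χ₁ : DirichletCharacter ℂ q₁)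
    (χ₂ : DirichletCharacter ℂ q₂)
    (hE : ∀ s : ℂ, 1 < s.re →
      (∑' c, a c * (N c : ℂ) ^ (-s)) * (LFunction χ₁ s * LFunction χ₂ s) = 1)
    {s : ℂ} (h1 : θ < s.re) (h2 : s ≠ 1) (h3 : mellin W s ≠ 0) : LFunction χ₁ s ≠ 0 := by
  obtain ⟨G, hG, hG'⟩ := cont N hN a ha hs hW hB
  have hU : IsOpen {s : ℂ | θ < s.re} := isOpen_lt continuous_const continuous_re
  have a1 : AnalyticOnNhd ℂ (fun s => G s * (Pf χ₁ s * Pf χ₂ s)) {s : ℂ | θ < s.re} :=
    DifferentiableOn.analyticOnNhd (fun z hz => ((hG z hz).mul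
      ((Pf_diff χ₁ z).mul (Pf_diff χ₂ z))).differentiableWithinAt) hU
  have a2 : AnalyticOnNhd ℂ (fun s => mellin W s * (s - 1) ^ 2) {s : ℂ | θ < s.re} :=
    DifferentiableOn.analyticOnNhd (fun z hz => ((hW.diff (hθ.trans_lt hz)).mul
      (by fun_prop)).differentiableWithinAt) hU
  have e := a1.eqOn_of_preconnected_of_eventuallyEq a2 (convex_halfSpace_re_gt θ).isPreconnected
    (z₀ := 2) (by simp; linarith) (by
      filter_upwards [(isOpen_lt continuous_const continuous_re).mem_nhds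
        (show (2 : ℂ) ∈ {s : ℂ | 1 < s.re} by simp)] with z hz
      have hz1 : z ≠ 1 := by rintro rfl; simp at hz
      rw [hG' z hz, Pf_eq _ hz1, Pf_eq _ hz1]
      linear_combination mellin W z * (z - 1) ^ 2 * hE z hz) h1
  intro h0
  simp only [Pf_eq _ h2, h0, mul_zero, zero_mul] at e
  exact mul_ne_zero h3 (pow_ne_zero 2 (sub_ne_zero.2 h2)) e.symm

/-- the log-Gaussian weight -/
noncomputable def LG (y : ℝ) : ℂ := (Real.exp (-Real.log y ^ 2) : ℝ)

lemma Wt_LG : Wt LG := by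
  refine ⟨continuous_ofReal.comp_continuousOn (Real.continuous_exp.comp_continuousOn
    ((Real.continuousOn_log.mono fun y hy => ne_of_gt hy).pow 2).neg), fun K _ =>
    ⟨Real.exp (K ^ 2 / 4), fun y hy => ?_⟩⟩
  rw [LG, norm_real, Real.norm_of_nonneg (Real.exp_pos _).le, Real.rpow_def_of_pos hy,
    ← Real.exp_add]
  exact Real.exp_le_exp.2 (by nlinarith [sq_nonneg (Real.log y - K / 2)])

lemma mellin_LG (s : ℂ) : mellin LG s = (Real.pi : ℂ) ^ (1 / 2 : ℂ) * exp (s ^ 2 / 4) := by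
  have h := integral_cexp_quadratic (b := -1) (by simp) s 0
  have h2 := integral_image_eq_integral_abs_deriv_smul (s := univ) (f := Real.exp) (f' := Real.exp)
    MeasurableSet.univ (fun x _ => (Real.hasDerivAt_exp x).hasDerivWithinAt)
    Real.exp_injective.injOn (fun t : ℝ => (t : ℂ) ^ (s - 1) • LG t)
  rw [image_univ, Real.range_exp, Measure.restrict_univ] at h2
  rw [mellin, h2]
  refine Eq.trans (integral_congr_ae (Eventually.of_forall fun x => ?_)) (h.trans ?_)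
  · simp only [LG, Real.log_exp, abs_of_pos (Real.exp_pos x), real_smul, smul_eq_mul, ofReal_exp]
    rw [cpow_def_of_ne_zero (exp_ne_zero _), ← ofReal_exp, ← ofReal_log (Real.exp_pos x).le,
      Real.log_exp, ofReal_exp, ← exp_add, ← exp_add]
    congr 1
    push_cast
    ring
  · congr 2 <;> ring

lemma mellin_LG_ne (s : ℂ) : mellin LG s ≠ 0 := by
  rw [mellin_LG]
  refine mul_ne_zero ?_ (exp_ne_zero _)
  rw [Ne, cpow_eq_zero_iff, not_and_or, ofReal_eq_zero]
  exact Or.inl Real.pi_ne_zero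

/-- the same with the log-Gaussian weight written out -/
theorem zero_free_LG {C : Type*} [Countable C] (N : C → ℕ) (hN : ∀ c, 1 ≤ N c) (a : C → ℂ)
    (ha : ∀ c, ‖a c‖ ≤ 1) (hs : ∀ σ : ℝ, 1 < σ → Summable fun c => (N c : ℝ) ^ (-σ))
    {θ B : ℝ} (hθ : 0 ≤ θ) (hθ1 : θ ≤ 1)
    (hB : ∀ X : ℝ, 1 ≤ X →
      ‖∑' c, a c * ((Real.exp (-(Real.log (N c) - Real.log X) ^ 2) : ℝ) : ℂ)‖ ≤ B * X ^ θ)
    {q₁ q₂ : ℕ} [NeZero q₁] [NeZero q₂] (χ₁ : DirichletCharacter ℂ q₁)
    (χ₂ : DirichletCharacter ℂ q₂)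
    (hE : ∀ s : ℂ, 1 < s.re →
      (∑' c, a c * (N c : ℂ) ^ (-s)) * (LFunction χ₁ s * LFunction χ₂ s) = 1)
    {s : ℂ} (h1 : θ < s.re) (h2 : s ≠ 1) : LFunction χ₁ s ≠ 0 := by
  refine zero_free N hN a ha hs Wt_LG (B := B) hθ hθ1 (fun X hX => ?_) χ₁ χ₂ hE h1 h2
    (mellin_LG_ne s)
  refine le_trans (le_of_eq ?_) (hB X hX)
  congr 2
  funext c
  have : (0 : ℝ) < N c := by exact_mod_cast hN c
  rw [LG, Real.log_div this.ne' (by linarith)]

/-- a zero of `L(s, χ)` is a zero of the L-function at every higher level -/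
theorem ne_zero_of_changeLevel {q Q : ℕ} [NeZero q] [NeZero Q] (h : q ∣ Q)
    (χ : DirichletCharacter ℂ q) {s : ℂ} (hs : s ≠ 1)
    (h0 : LFunction (changeLevel h χ) s ≠ 0) : LFunction χ s ≠ 0 := by
  rw [LFunction_changeLevel h χ (Or.inr hs)] at h0
  exact left_ne_zero_of_mul h0

end Pool.Agent.P.MP_26a8c3_nt.QE
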