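import Pool.Agent.P.MP_26a8c3_nt.QE.EulA
import Pool.Agent.P.MP_26a8c3_nt.QE.Mel
import Pool.Agent.P.MP_26a8c3_nt.QE.Psi

/-! The Euler product identity for a ring that behaves like the Eisenstein integers. -/

namespace Pool.Agent.P.MP_26a8c3_nt.QE

open Finset UniqueFactorizationMonoid DirichletCharacter

/-- the properties of the Eisenstein integers that are used -/
structure EisLike {R : Type*} [CommRing R] (N : R →* ℕ) (σ : R →+* R) (w : R) (Pm : R → Prop) :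
    Prop extends Nrm Pm where
  norm : ∀ x, (N x : R) = x * σ x
  unit : ∀ x, N x = 1 → IsUnit x
  nat : ∀ n : ℕ, N n = n ^ 2
  pos : ∀ x, N x = 0 → x = 0
  mod : ∀ x, N x % 3 ≠ 2
  ww : w ^ 2 + w + 1 = 0
  sw : σ w = w ^ 2
  ss : ∀ x, σ (σ x) = x
  ndvd : ∀ (p : ℕ) (x : ℤ), (p : R) ∣ x - w → p = 1
  pm : ∀ c, Pm c ↔ 3 ∣ c - 1

variable {R : Type*} [CommRing R] {N : R →* ℕ} {σ : R →+* R} {w : R} {Pm : R → Prop}

namespace EisLike

lemma N_unit {x : R} (hx : IsUnit x) : N x = 1 := Nat.isUnit_iff.1 (hx.map N)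

lemma N_assoc {x y : R} (hx : Associated x y) : N x = N y := by
  obtain ⟨u, rfl⟩ := hx
  rw [map_mul, N_unit u.isUnit, mul_one]

lemma pm_sigma (h : EisLike N σ w Pm) {c : R} (hc : Pm c) : Pm (σ c) := by
  rw [h.pm] at hc ⊢
  simpa [map_ofNat] using map_dvd σ hc

lemma N_sigma (h : EisLike N σ w Pm) (x : R) : N (σ x) = N x := by
  have h1 := h.nat (N x)
  have h2 := h.nat (N (σ x))
  rw [h.norm, map_mul] at h1 h2
  rw [h.ss, mul_comm, h1] at h2
  exact (Nat.pow_left_injective two_ne_zero h2).symm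

lemma dvd_nat (h : EisLike N σ w Pm) {x : R} {n : ℕ} (hx : x ∣ n) : N x ∣ n ^ 2 :=
  h.nat n ▸ map_dvd N hx

lemma not_dvd_three (h : EisLike N σ w Pm) {c p : R} (hc : Pm c) (hp : Prime p) (h1 : p ∣ c) :
    ¬ p ∣ 3 := fun h3 => hp.not_dvd_one (by
  simpa using dvd_sub h1 (h3.trans ((h.pm c).1 hc)))

lemma irr (h : EisLike N σ w Pm) {x : R} (hx : (N x).Prime) : Irreducible x :=
  ⟨fun hu => hx.ne_one (N_unit hu), fun a b e => by
    rw [e, map_mul] at hx
    exact (hx.isUnit_or_isUnit rfl).imp (fun u => h.unit a (Nat.isUnit_iff.1 u))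
      fun u => h.unit b (Nat.isUnit_iff.1 u)⟩

/-- the rational prime below a prime -/
lemma below (h : EisLike N σ w Pm) {x : R} (hx : Prime x) {p : ℕ} (hp : p.Prime) :
    (N x).minFac = p ↔ x ∣ p := by
  have h1 : N x ≠ 1 := fun e => hx.not_isUnit (h.unit x e)
  have key : ∀ q : ℕ, q.Prime → x ∣ q → (N x).minFac = q := fun q hq hd =>
    (Nat.prime_dvd_prime_iff_eq (Nat.minFac_prime h1) hq).1 ((Nat.minFac_prime h1).dvd_of_dvd_pow
      ((Nat.minFac_dvd _).trans (h.dvd_nat hd)))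
  refine ⟨fun e => ?_, key p hp⟩
  have h0 : N x ≠ 0 := fun e0 => hx.ne_zero (h.pos x e0)
  have h2 : x ∣ ((N x).primeFactorsList.map fun q : ℕ => (q : R)).prod := by
    rw [← Nat.cast_list_prod, Nat.prod_primeFactorsList h0, h.norm]
    exact dvd_mul_right _ _
  obtain ⟨a, ha, hxa⟩ := hx.dvd_prod_iff.1 h2
  obtain ⟨q, hq, rfl⟩ := List.mem_map.1 ha
  rwa [← e, key q (Nat.prime_of_mem_primeFactorsList hq) hxa]

variable [IsDomain R] [UniqueFactorizationMonoid R]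

lemma inert (h : EisLike N σ w Pm) {p : ℕ} (hp : p.Prime) (h3 : p % 3 = 2) :
    Prime (-(p : R)) ∧ Pm (-(p : R)) := by
  refine ⟨(irreducible_iff_prime.1 ⟨fun hu => ?_, fun a b e => ?_⟩).neg, (h.pm _).2 ⟨-(p / 3 + 1 : ℕ), ?_⟩⟩
  · have := N_unit (N := N) hu
    rw [h.nat] at this
    nlinarith [hp.two_le]
  · have e1 := h.nat p
    rw [e, map_mul] at e1
    obtain ⟨i, hi, e2⟩ := (Nat.dvd_prime_pow hp).1 (Dvd.intro _ e1)
    interval_cases i
    · exact Or.inl (h.unit a e2)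
    · exact absurd (by rw [e2, pow_one, h3]) (h.mod a)
    · rw [e2] at e1
      exact Or.inr (h.unit b ((Nat.mul_eq_left (pow_ne_zero 2 hp.ne_zero)).1 e1))
  · have e : p = 3 * (p / 3) + 2 := by omega
    conv_lhs => rw [e]
    push_cast
    ring

lemma split (h : EisLike N σ w Pm) {p : ℕ} (hp : p.Prime) (h3 : p % 3 = 1) :
    ∃ a b : PP Pm, a ≠ b ∧ N a.1 = p ∧ N b.1 = p ∧ a.1 * b.1 = p := by
  have := Fact.mk hp
  obtain ⟨x, hx⟩ : ∃ x : ℤ, (p : ℤ) ∣ x ^ 2 + x + 1 := by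
    obtain ⟨g, hg⟩ := exists_prime_orderOf_dvd_card (G := (ZMod p)ˣ) 3
      (by rw [ZMod.card_units]; omega)
    have g3 : (g : ZMod p) ^ 3 = 1 := by rw [← Units.val_pow_eq_pow_val, ← hg, pow_orderOf_eq_one]; rfl
    have g1 : (g : ZMod p) - 1 ≠ 0 := fun e => by
      rw [Units.val_eq_one.1 (sub_eq_zero.1 e), orderOf_one] at hg
      omega
    refine ⟨(g : ZMod p).cast, (ZMod.intCast_zmod_eq_zero_iff_dvd _ p).1 (mul_left_cancel₀ g1 ?_)⟩
    push_cast
    linear_combination g3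
  have sx : σ (x - w) = x - w ^ 2 := by rw [map_sub, map_intCast, h.sw]
  have sx' : σ (x - w ^ 2) = x - w := by rw [← sx, h.ss]
  have hd : (p : R) ∣ (x - w) * (x - w ^ 2) := by
    have e := map_dvd (Int.castRingHom R) hx
    simp only [eq_intCast, Int.cast_natCast, Int.cast_add, Int.cast_pow, Int.cast_one] at e
    rwa [show (x - w) * (x - w ^ 2) = (x : R) ^ 2 + x + 1 by linear_combination (w - 1 - x) * h.ww]
  have hnp : ¬ Irreducible (p : R) := fun hi => by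
    rcases (irreducible_iff_prime.1 hi).dvd_or_dvd hd with e | e
    · exact hp.ne_one (h.ndvd p x e)
    · have e' := map_dvd σ e
      rw [map_natCast, sx'] at e'
      exact hp.ne_one (h.ndvd p x e')
  have hP : Pm (p : R) := (h.pm _).2 ⟨(p / 3 : ℕ), by
    have e : p = 3 * (p / 3) + 1 := by omega
    conv_lhs => rw [e]
    push_cast
    ring⟩
  have hu : ¬ IsUnit (p : R) := fun hu => by
    have := N_unit (N := N) hu
    rw [h.nat] at this
    nlinarith [hp.two_le]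
  obtain ⟨a, b, ha, hb, e⟩ := (irreducible_or_factor hu).resolve_left hnp
  have e1 := h.nat p
  rw [e, map_mul] at e1
  have Na : N a = p := by
    obtain ⟨i, hi, e2⟩ := (Nat.dvd_prime_pow hp).1 (Dvd.intro _ e1)
    interval_cases i
    · exact absurd (h.unit a e2) ha
    · rw [e2, pow_one]
    · rw [e2] at e1
      exact absurd (h.unit b ((Nat.mul_eq_left (pow_ne_zero 2 hp.ne_zero)).1 e1)) hb
  obtain ⟨c, hc, hac⟩ := h.ex p hP a ⟨b, e⟩
  have Nc : N c = p := by rw [← N_assoc hac, Na]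
  have Nc' : N (σ c) = p := by rw [h.N_sigma, Nc]
  have c1 : Prime c := irreducible_iff_prime.1 (h.irr (Nc ▸ hp))
  have c2 : Prime (σ c) := irreducible_iff_prime.1 (h.irr (Nc' ▸ hp))
  have e3 : c * σ c = p := by rw [← h.norm, Nc]
  refine ⟨⟨c, c1, hc⟩, ⟨σ c, c2, h.pm_sigma hc⟩, fun e4 => ?_, Nc, Nc', e3⟩
  have e5 : c = σ c := congrArg Subtype.val e4
  have e6 : c ∣ x - w ∧ c ∣ x - w ^ 2 := by
    rcases c1.dvd_or_dvd ((Dvd.intro _ e3).trans hd) with e | e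
    · exact ⟨e, by rw [e5, ← sx]; exact map_dvd σ e⟩
    · exact ⟨by rw [e5, ← sx']; exact map_dvd σ e, e⟩
  refine h.not_dvd_three hc c1 dvd_rfl ?_
  have e7 := (dvd_sub e6.1 e6.2).mul_right (w - w ^ 2)
  rwa [show (x - w - (x - w ^ 2)) * (w - w ^ 2) = 3 by
    linear_combination (-w ^ 2 + 3 * w - 3) * h.ww] at e7

end EisLike

lemma hasProd_fib {ι : Type*} (f : ι → ℂ) (P : ι → Prop) (S : Finset ι) (h : ∀ i, P i ↔ i ∈ S) :
    HasProd (fun i : {i // P i} => f i.1) (∏ i ∈ S, f i) := by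
  obtain rfl : P = fun i => i ∈ S := funext fun i => propext (h i)
  exact S.hasProd f

lemma exists_twist {q : ℕ} (h3 : 3 ∣ q) (χ : DirichletCharacter ℂ q) :
    ∃ χ₂ : DirichletCharacter ℂ q, ∀ n : ℕ, (n % 3 = 0 → χ n = 0 ∧ χ₂ n = 0) ∧
      (n % 3 = 1 → χ₂ n = χ n) ∧ (n % 3 = 2 → χ₂ n = -χ n) := by
  set ψ : DirichletCharacter ℂ 3 := (quadraticChar (ZMod 3)).ringHomComp (Int.castRingHom ℂ)
  have e : ∀ n : ℕ, (χ * changeLevel h3 ψ) n = χ n * ψ (n % 3 : ℕ) := fun n => by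
    rw [MulChar.mul_apply, ZMod.natCast_mod]
    by_cases hn : n.Coprime q
    · have := changeLevel_eq_cast_of_dvd' ψ h3 (Nat.isCoprime_iff_coprime.2 hn)
      simp only [Int.cast_natCast] at this
      rw [this]
    · rw [χ.map_nonunit (mt (ZMod.isUnit_iff_coprime n q).1 hn), zero_mul, zero_mul]
  refine ⟨χ * changeLevel h3 ψ, fun n => ⟨fun h => ?_, fun h => ?_, fun h => ?_⟩⟩
  · have : χ n = 0 := χ.map_nonunit fun hu => by
      have := Nat.Coprime.eq_one_of_dvd (Nat.Coprime.coprime_dvd_left (Nat.dvd_of_mod_eq_zero h)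
        ((ZMod.isUnit_iff_coprime n q).1 hu)) h3
      omega
    exact ⟨this, by rw [e, this, zero_mul]⟩
  · rw [e, h, Nat.cast_one, map_one, mul_one]
  · have : quadraticChar (ZMod 3) ((2 : ℕ) : ZMod 3) = -1 :=
      quadraticChar_neg_one_iff_not_isSquare.2 (by decide)
    rw [e, h, MulChar.ringHomComp_apply, this]
    simp

variable [IsDomain R] [UniqueFactorizationMonoid R]

/-- the Euler product identity -/
theorem EisLike.euler (h : EisLike N σ w Pm)
    (hs : ∀ t : ℝ, 1 < t → Summable fun c : {c // Pm c} => (N c.1 : ℝ) ^ (-t))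
    {q : ℕ} [NeZero q] (h3 : 3 ∣ q) (χ : DirichletCharacter ℂ q) :
    ∃ χ₂ : DirichletCharacter ℂ q, ∀ s : ℂ, 1 < s.re →
      (∑' c : {c // Pm c}, ((moebius c.1 : ℂ) * χ (N c.1)) * (N c.1 : ℂ) ^ (-s)) *
        (LFunction χ s * LFunction χ₂ s) = 1 := by
  classical
  obtain ⟨χ₂, h2⟩ := exists_twist h3 χ
  refine ⟨χ₂, fun s hs1 => ?_⟩
  have s0 : s ≠ 0 := Complex.ne_zero_of_one_lt_re hs1
  set F : R →* ℂ := (dirichletSummandHom χ s0 : ℕ →* ℂ).comp N with hF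
  have F1 : ∀ c, F c = χ (N c) * (N c : ℂ) ^ (-s) := fun c => rfl
  have hp1 : ∀ x : PP Pm, N x.1 ≠ 1 := fun x e => x.2.1.not_isUnit (h.unit _ e)
  have hsum : Summable fun p : PP Pm => ‖F p.1‖ := by
    refine Summable.of_nonneg_of_le (fun _ => norm_nonneg _) (fun p => ?_)
      ((hs _ hs1).comp_injective (i := fun p : PP Pm => ⟨p.1, p.2.2⟩)
        fun a b e => Subtype.ext (congrArg (fun z : {c // Pm c} => z.1) e))
    have h0 : 0 < N p.1 := Nat.pos_of_ne_zero fun e => p.2.1.ne_zero (h.pos _ e)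
    rw [F1, norm_mul, Complex.norm_natCast_cpow_of_pos h0, Complex.neg_re]
    exact mul_le_of_le_one_left (by positivity) (χ.norm_le_one _)
  have ne : ∀ (ψ : DirichletCharacter ℂ q) (p : Nat.Primes), 1 - ψ p * (p : ℂ) ^ (-s) ≠ 0 := by
    intro ψ p e
    have e1 := congrArg (fun z : ℂ => ‖z‖) (sub_eq_zero.1 e)
    rw [norm_one, norm_mul, Complex.norm_natCast_cpow_of_pos p.2.pos, Complex.neg_re] at e1
    have e2 : ((p : ℕ) : ℝ) ^ (-s.re) < 1 :=
      Real.rpow_lt_one_of_one_lt_of_neg (by exact_mod_cast p.2.one_lt) (by linarith)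
    have e3 := mul_le_of_le_one_left (show 0 ≤ ((p : ℕ) : ℝ) ^ (-s.re) by positivity)
      (ψ.norm_le_one (p : ℕ))
    linarith
  simp only [mul_assoc, ← F1]
  rw [LFunction_eq_LSeries _ hs1, LFunction_eq_LSeries _ hs1]
  refine euler_fibre (h.toNrm.hasProd F hsum)
    (fun x : PP Pm => (⟨(N x.1).minFac, Nat.minFac_prime (hp1 x)⟩ : Nat.Primes)) (fun p => ?_)
    (LSeries_eulerProduct_hasProd χ hs1) (LSeries_eulerProduct_hasProd χ₂ hs1) (ne χ) (ne χ₂)
  obtain ⟨p, hp⟩ := p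
  have hb : ∀ x : PP Pm, (⟨(N x.1).minFac, Nat.minFac_prime (hp1 x)⟩ : Nat.Primes) = ⟨p, hp⟩ ↔
      x.1 ∣ p := fun x => Subtype.ext_iff.trans (h.below x.2.1 hp)
  obtain ⟨k0, k1, k2⟩ := h2 p
  obtain e | e | e : p % 3 = 0 ∨ p % 3 = 1 ∨ p % 3 = 2 := by omega
  · have e3 : p = 3 := ((Nat.prime_dvd_prime_iff_eq Nat.prime_three hp).1
      (Nat.dvd_of_mod_eq_zero e)).symm
    have := hasProd_fib (fun x : PP Pm => 1 - F x.1) _ ∅ fun x => (hb x).trans
      ⟨fun hx => absurd (by simpa [e3] using hx) (h.not_dvd_three x.2.2 x.2.1 dvd_rfl), by simp⟩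
    simpa [(k0 e).1, (k0 e).2] using this
  · obtain ⟨a, b, hab, Na, Nb, e1⟩ := h.split hp e
    have := hasProd_fib (fun x : PP Pm => 1 - F x.1) _ {a, b} fun x => (hb x).trans (by
      rw [← e1, ← h.toNrm.dvd_pr, pr, prod_pair hab])
    rw [prod_pair hab, F1, F1, Na, Nb] at this
    simpa [k1 e] using this
  · have := hasProd_fib (fun x : PP Pm => 1 - F x.1) _ {⟨_, h.inert hp e⟩} fun x => (hb x).trans (by
      rw [← h.toNrm.dvd_pr, pr, prod_singleton, dvd_neg])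
    have e1 : F (-(p : R)) = (χ p * (p : ℂ) ^ (-s)) ^ 2 := by
      rw [hF, MonoidHom.comp_apply, EisLike.N_assoc (Associated.refl (p : R)).neg_left, h.nat,
        map_pow]
      rfl
    rw [prod_singleton, e1] at this
    refine Eq.subst (motive := HasProd _) ?_ this
    simp only [k2 e]
    ring

/-- a power saving for the smoothed Moebius sums gives the zero free half plane -/
theorem EisLike.zf [Countable R] (h : EisLike N σ w Pm)
    (hs : ∀ t : ℝ, 1 < t → Summable fun c : {c // Pm c} => (N c.1 : ℝ) ^ (-t))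
    {θ : ℝ} (h0 : 0 ≤ θ) (h1 : θ ≤ 1)
    (hZ : ∀ (q : ℕ) (χ : DirichletCharacter ℂ q), 0 < q → 36 ∣ q → ∃ B : ℝ, ∀ X : ℝ, 1 ≤ X →
      ‖∑' c : {c // Pm c}, ((moebius c.1 : ℂ) * χ (N c.1)) *
        ((Real.exp (-(Real.log (N c.1) - Real.log X) ^ 2) : ℝ) : ℂ)‖ ≤ B * X ^ θ) : ZF θ := by
  intro q _ χ s s1 s2
  have : NeZero (36 * q) := ⟨mul_ne_zero (by norm_num) (NeZero.ne q)⟩
  obtain ⟨B, hB⟩ := hZ (36 * q) (changeLevel (dvd_mul_left q 36) χ) (NeZero.pos _) (dvd_mul_right _ _)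
  obtain ⟨χ₂, hE⟩ := h.euler hs (q := 36 * q) (Dvd.dvd.mul_right (by norm_num) q)
    (changeLevel (dvd_mul_left q 36) χ)
  refine ne_zero_of_changeLevel (dvd_mul_left q 36) χ s2 (zero_free_LG (fun c : {c // Pm c} => N c.1)
    (fun c => Nat.pos_of_ne_zero fun e => ?_) _ (fun c => ?_) hs h0 h1 hB _ χ₂ hE s1 s2)
  · obtain ⟨p, hp, e1⟩ := h.ex c.1 c.2 3 (by rw [h.pos _ e]; exact dvd_zero _)
    have e2 : (3 : R) ∣ 1 := by simpa using dvd_sub e1.dvd ((h.pm p).1 hp)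
    have e3 := map_dvd N e2
    rw [map_one, show (3 : R) = (3 : ℕ) by simp, h.nat] at e3
    norm_num at e3
  · rw [norm_mul]
    refine mul_le_one₀ ?_ (norm_nonneg _) (DirichletCharacter.norm_le_one _ _)
    unfold moebius
    split_ifs <;> simp

end Pool.Agent.P.MP_26a8c3_nt.QE
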