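import Pool.Agent.P.MP_26a8c3_nt.QE.Nu
import Pool.Agent.P.MP_26a8c3_nt.QO.Top
import Pool.Agent.P.MP_26a8c3_nt.QO.Sym

/-! From the power saving on the Moebius side to the join. -/

namespace Pool.Agent.P.MP_26a8c3_nt.QE

open Pool.Agent.P.MP_26a8c3_nt.QO Pool.Agent.P.MP_26a8c3_nt.QA UniqueFactorizationMonoid

lemma mu_eq (c : O) : mu c = (moebius c : ℂ) := by
  unfold mu moebius QO.ext
  split_ifs
  · simp [normalizedFactors]
  · simp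

theorem zf_of (h : S_Z) : ZF (1999 / 2000) := by
  refine zf_nu (by norm_num) (by norm_num) fun Q ν a b c d e f g => ?_
  obtain ⟨C, hC⟩ := h Q a b ν ⟨c, d, e, f, g⟩
  refine ⟨C, fun X c => uA ν 1 1 c * W X 0 (nr c), fun X c hc => ?_, fun X c hc => ?_, hC⟩
  · beta_reduce
    rw [uA, if_neg fun k => hc k.1.1, zero_mul]
  · beta_reduce
    rw [nr_eq hc.ne_zero, W, uA, ← mu_eq, Complex.ofReal_exp]
    split_ifs with k
    · simp
    · rw [mu, if_neg fun s => k ⟨⟨hc, s⟩, isCoprime_one_right⟩]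
      simp

theorem fin (h : S_Z) (A : ℝ) :
    ∃ δ : ℝ, 0 < δ ∧ ∀ k : ℕ, ∀ l : ℤ, ∀ x y : ℝ,
      1 ≤ k → (k : ℝ) < y → y ≤ x → Int.gcd l (k : ℤ) = 1 → x ≤ (y / (k : ℝ)) ^ A →
        (({p : ℕ | p.Prime ∧ x - y < (p : ℝ) ∧ (p : ℝ) ≤ x ∧
            (p : ℤ) ≡ l [ZMOD (k : ℤ)]}.ncard : ℕ) : ℝ) <
          (2 - δ) * y / ((Nat.totient k : ℝ) * Real.log (y / (k : ℝ))) :=
  join (by norm_num) (zf_of h) A

end Pool.Agent.P.MP_26a8c3_nt.QE
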