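import Pool.Agent.P.MP_26a8c3_nt.QE.EulO

/-! A Dirichlet character composed with the norm is a character modulo `q` on `O`. -/

namespace Pool.Agent.P.MP_26a8c3_nt.QE

open Pool.Agent.P.MP_26a8c3_nt.QO

lemma nu_per {q : ℕ} (χ : DirichletCharacter ℂ q) (x y : O) (h : (q : O) ∣ x - y) :
    χ (N x) = χ (N y) := by
  obtain ⟨h1, h2⟩ := (intCast_dvd_iff q _).1 (by simpa using h)
  simp only [QuadraticAlgebra.re_sub, QuadraticAlgebra.im_sub] at h1 h2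
  have e1 := (ZMod.intCast_eq_intCast_iff_dvd_sub _ _ q).2 h1
  have e2 := (ZMod.intCast_eq_intCast_iff_dvd_sub _ _ q).2 h2
  have a := congrArg (Int.cast : ℤ → ZMod q) (N_int x)
  have b := congrArg (Int.cast : ℤ → ZMod q) (N_int y)
  push_cast at a b
  rw [a, b, e1, e2]

lemma nu_zero {q : ℕ} (χ : DirichletCharacter ℂ q) (a : O) (h : ¬ IsCoprime a (q : O)) :
    χ (N a) = 0 :=
  χ.map_nonunit fun hu => h ((Nat.Coprime.cast (R := O)
    ((ZMod.isUnit_iff_coprime _ q).1 hu)).of_isCoprime_of_dvd_left (dvd_N a))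

/-- the half plane from a bound for all characters modulo `Q`, `36 ∣ Q` -/
theorem zf_nu {θ : ℝ} (h0 : 0 ≤ θ) (h1 : θ ≤ 1)
    (hZ : ∀ (Q : O) (ν : O → ℂ), Q ≠ 0 → 36 ∣ Q → ν 1 = 1 → (∀ a b, ν (a * b) = ν a * ν b) →
      (∀ x y, Q ∣ x - y → ν x = ν y) → (∀ a, ¬ IsCoprime a Q → ν a = 0) → (∀ a, ‖ν a‖ ≤ 1) →
      ∃ (B : ℝ) (u : ℝ → O → ℂ), (∀ X c, ¬ Primary c → u X c = 0) ∧
        (∀ X c, Primary c → u X c = (UniqueFactorizationMonoid.moebius c : ℂ) * ν c *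
          ((Real.exp (-(Real.log (N c) - Real.log X) ^ 2) : ℝ) : ℂ)) ∧
        ∀ X : ℝ, 1 ≤ X → ‖∑' c, u X c‖ ≤ B * X ^ θ) : ZF θ := by
  refine zf_O h0 h1 fun q χ a b => hZ q (fun c => χ (N c)) (Nat.cast_ne_zero.2 a.ne') ?_ (by simp)
    (fun a b => by simp) (nu_per χ) (nu_zero χ) fun a => χ.norm_le_one _
  simpa using map_dvd (Nat.castRingHom O) b

end Pool.Agent.P.MP_26a8c3_nt.QE
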